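import Pool.Agent.Helper9.KS4.Nash

/-!
# Project KS4: the strategy sets and their minimisers
-/

set_option autoImplicit false

namespace Pool.Agent.Helper9.KS4

open Finset Classical

variable {K : ℕ}

/-- Subdistributions off `B` with cap `1/a`. -/
def YS (a : ℕ) (B : Finset (Fin K)) : Set (Fin K → ℝ) :=
  {y | (∀ j, 0 ≤ y j ∧ y j ≤ 1 / (a : ℝ)) ∧ ∑ j, y j ≤ 1 ∧ ∀ j ∈ B, y j = 0}

/-- Distributions on `B` with cap `1/a`. -/
def ZS (a : ℕ) (B : Finset (Fin K)) : Set (Fin K → ℝ) :=
  {y | (∀ j, 0 ≤ y j ∧ y j ≤ 1 / (a : ℝ)) ∧ ∑ j, y j = 1 ∧ ∀ j, j ∉ B → y j = 0}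

theorem box_compact (a : ℕ) :
    IsCompact {y : Fin K → ℝ | ∀ j, 0 ≤ y j ∧ y j ≤ 1 / (a : ℝ)} := by
  have h : {y : Fin K → ℝ | ∀ j, 0 ≤ y j ∧ y j ≤ 1 / (a : ℝ)} =
      Set.pi Set.univ fun _ : Fin K => Set.Icc (0 : ℝ) (1 / a) := by
    ext y
    simp only [Set.mem_setOf_eq, Set.mem_pi, Set.mem_univ, true_implies, Set.mem_Icc]
  rw [h]
  exact isCompact_univ_pi fun _ => isCompact_Icc

theorem YS_compact (a : ℕ) (B : Finset (Fin K)) : IsCompact (YS a B) := by
  have h : YS a B = {y : Fin K → ℝ | ∀ j, 0 ≤ y j ∧ y j ≤ 1 / (a : ℝ)} ∩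
      ({y | ∑ j, y j ≤ 1} ∩ ⋂ j ∈ B, {y | y j = 0}) := by
    ext y
    simp [YS]
  rw [h]
  refine (box_compact a).inter_right (IsClosed.inter ?_ ?_)
  · exact isClosed_le (continuous_finsetSum _ fun j _ => continuous_apply j) continuous_const
  · exact isClosed_iInter fun j => isClosed_iInter fun _ =>
      isClosed_eq (continuous_apply j) continuous_const

theorem ZS_compact (a : ℕ) (B : Finset (Fin K)) : IsCompact (ZS a B) := by
  have h : ZS a B = {y : Fin K → ℝ | ∀ j, 0 ≤ y j ∧ y j ≤ 1 / (a : ℝ)} ∩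
      ({y | ∑ j, y j = 1} ∩ ⋂ j, ⋂ (_ : j ∉ B), {y | y j = 0}) := by
    ext y
    simp [ZS]
  rw [h]
  refine (box_compact a).inter_right (IsClosed.inter ?_ ?_)
  · exact isClosed_eq (continuous_finsetSum _ fun j _ => continuous_apply j) continuous_const
  · exact isClosed_iInter fun j => isClosed_iInter fun _ =>
      isClosed_eq (continuous_apply j) continuous_const

theorem YS_convex (a : ℕ) (B : Finset (Fin K)) : Convex ℝ (YS a B) := by
  rw [convex_iff_forall_pos]
  rintro y ⟨h1, h2, h3⟩ z ⟨k1, k2, k3⟩ α β hα hβ hαβ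
  refine ⟨fun j => ⟨?_, ?_⟩, ?_, ?_⟩
  · have := h1 j; have := k1 j
    simp only [Pi.add_apply, Pi.smul_apply, smul_eq_mul]
    nlinarith [mul_nonneg hα.le (h1 j).1, mul_nonneg hβ.le (k1 j).1]
  · simp only [Pi.add_apply, Pi.smul_apply, smul_eq_mul]
    have e1 := mul_le_mul_of_nonneg_left (h1 j).2 hα.le
    have e2 := mul_le_mul_of_nonneg_left (k1 j).2 hβ.le
    have : 1 / (a : ℝ) = α * (1 / a) + β * (1 / a) := by rw [← add_mul, hαβ, one_mul]
    linarith
  · simp only [Pi.add_apply, Pi.smul_apply, smul_eq_mul, sum_add_distrib, ← mul_sum]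
    have e1 := mul_le_mul_of_nonneg_left h2 hα.le
    have e2 := mul_le_mul_of_nonneg_left k2 hβ.le
    linarith
  · intro j hj
    simp [h3 j hj, k3 j hj]

theorem ZS_convex (a : ℕ) (B : Finset (Fin K)) : Convex ℝ (ZS a B) := by
  rw [convex_iff_forall_pos]
  rintro y ⟨h1, h2, h3⟩ z ⟨k1, k2, k3⟩ α β hα hβ hαβ
  refine ⟨fun j => ⟨?_, ?_⟩, ?_, ?_⟩
  · simp only [Pi.add_apply, Pi.smul_apply, smul_eq_mul]
    nlinarith [mul_nonneg hα.le (h1 j).1, mul_nonneg hβ.le (k1 j).1]
  · simp only [Pi.add_apply, Pi.smul_apply, smul_eq_mul]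
    have e1 := mul_le_mul_of_nonneg_left (h1 j).2 hα.le
    have e2 := mul_le_mul_of_nonneg_left (k1 j).2 hβ.le
    have : 1 / (a : ℝ) = α * (1 / a) + β * (1 / a) := by rw [← add_mul, hαβ, one_mul]
    linarith
  · simp only [Pi.add_apply, Pi.smul_apply, smul_eq_mul, sum_add_distrib, ← mul_sum, h2, k2]
    linarith
  · intro j hj
    simp [h3 j hj, k3 j hj]

/-- Moving `y` in the direction of `e j`. -/
theorem sum_bump (y c : Fin K → ℝ) (j : Fin K) (δ : ℝ) :
    ∑ l, (y l + δ * (if l = j then 1 else 0)) * c l = ∑ l, y l * c l + δ * c j := by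
  have : ∀ l, (y l + δ * (if l = j then (1 : ℝ) else 0)) * c l =
      y l * c l + (if l = j then δ * c l else 0) := by
    intro l
    split_ifs <;> ring
  rw [sum_congr rfl fun l _ => this l, sum_add_distrib, sum_ite_eq' univ j]
  simp

theorem sum_bump1 (y : Fin K → ℝ) (j : Fin K) (δ : ℝ) :
    ∑ l, (y l + δ * (if l = j then 1 else 0)) = ∑ l, y l + δ := by
  have := sum_bump y (fun _ => 1) j δ
  simpa using this

theorem Y_min {a : ℕ} (ha : 1 ≤ a) {B : Finset (Fin K)} {y c : Fin K → ℝ} (hy : y ∈ YS a B)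
    (hmin : ∀ z ∈ YS a B, ∑ j, y j * c j ≤ ∑ j, z j * c j) :
    (∀ j, 0 < y j → c j ≤ 0) ∧
      (∑ j, y j = 1 ∨ (univ.filter fun j => j ∉ B ∧ c j < 0).card < a) := by
  obtain ⟨h1, h2, h3⟩ := hy
  have ha0 : (0 : ℝ) < a := by exact_mod_cast ha
  constructor
  · intro j hj
    have hz : (fun l => y l + (-(y j)) * (if l = j then 1 else 0)) ∈ YS a B := by
      refine ⟨fun l => ?_, ?_, fun l hl => ?_⟩
      · show 0 ≤ y l + (-(y j)) * (if l = j then 1 else 0) ∧
          y l + (-(y j)) * (if l = j then 1 else 0) ≤ 1 / (a : ℝ)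
        split_ifs with h
        · subst h
          constructor
          · linarith
          · have := (h1 l).2
            have := (h1 l).1
            linarith
        · simpa using h1 l
      · show ∑ l, (y l + (-(y j)) * (if l = j then 1 else 0)) ≤ 1
        rw [sum_bump1]
        linarith
      · show y l + (-(y j)) * (if l = j then 1 else 0) = 0
        split_ifs with h
        · subst h; ring
        · rw [h3 l hl]; ring
    have := hmin _ hz
    rw [sum_bump] at this
    nlinarith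
  · by_contra hcon
    rw [not_or, not_lt] at hcon
    obtain ⟨hne, hcard⟩ := hcon
    have hlt : ∑ j, y j < 1 := lt_of_le_of_ne h2 hne
    have hfull : ∀ j ∈ univ.filter (fun j => j ∉ B ∧ c j < 0), y j = 1 / (a : ℝ) := by
      intro j hj
      obtain ⟨-, hjB, hcj⟩ := mem_filter.1 hj
      by_contra hnj
      have hyj : y j < 1 / (a : ℝ) := lt_of_le_of_ne (h1 j).2 hnj
      obtain ⟨δ, hδ0, hδ1, hδ2⟩ : ∃ δ : ℝ, 0 < δ ∧ y j + δ ≤ 1 / (a : ℝ) ∧ ∑ j, y j + δ ≤ 1 := by
        refine ⟨min (1 / (a : ℝ) - y j) (1 - ∑ j, y j), ?_, ?_, ?_⟩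
        · exact lt_min (by linarith) (by linarith)
        · have := min_le_left (1 / (a : ℝ) - y j) (1 - ∑ j, y j)
          linarith
        · have := min_le_right (1 / (a : ℝ) - y j) (1 - ∑ j, y j)
          linarith
      have hz : (fun l => y l + δ * (if l = j then 1 else 0)) ∈ YS a B := by
        refine ⟨fun l => ?_, ?_, fun l hl => ?_⟩
        · show 0 ≤ y l + δ * (if l = j then 1 else 0) ∧ y l + δ * (if l = j then 1 else 0) ≤ 1 / (a : ℝ)
          split_ifs with h
          · subst h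
            constructor
            · have := (h1 l).1
              linarith
            · linarith
          · simpa using h1 l
        · show ∑ l, (y l + δ * (if l = j then 1 else 0)) ≤ 1
          rw [sum_bump1]
          exact hδ2
        · show y l + δ * (if l = j then 1 else 0) = 0
          have hlj : l ≠ j := fun h => hjB (h ▸ hl)
          rw [if_neg hlj, h3 l hl]; ring
      have := hmin _ hz
      rw [sum_bump] at this
      nlinarith
    have h4 : ∑ j ∈ univ.filter (fun j => j ∉ B ∧ c j < 0), y j ≤ ∑ j, y j :=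
      sum_le_sum_of_subset_of_nonneg (subset_univ _) fun j _ _ => (h1 j).1
    rw [sum_congr rfl hfull, sum_const, nsmul_eq_mul] at h4
    have h5 : (1 : ℝ) ≤ ((univ.filter fun j => j ∉ B ∧ c j < 0).card : ℝ) * (1 / a) := by
      rw [mul_one_div, le_div_iff₀ ha0, one_mul]
      exact_mod_cast hcard
    linarith

theorem Z_min {a : ℕ} (ha : 1 ≤ a) {B : Finset (Fin K)} {z c : Fin K → ℝ} {θ : ℝ} (hz : z ∈ ZS a B)
    (hmin : ∀ z' ∈ ZS a B, ∑ j, z j * c j ≤ ∑ j, z' j * c j)
    (hcard : a ≤ (B.filter fun j => c j < θ).card) :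
    ∀ i, 0 < z i → c i < θ := by
  obtain ⟨h1, h2, h3⟩ := hz
  have ha0 : (0 : ℝ) < a := by exact_mod_cast ha
  intro i hi
  by_contra hci
  have hiB : i ∈ B := by
    by_contra h
    rw [h3 i h] at hi
    exact lt_irrefl _ hi
  have hex : ∃ j ∈ B.filter (fun j => c j < θ), z j < 1 / (a : ℝ) := by
    by_contra hcon
    push Not at hcon
    have hiG : i ∉ B.filter (fun j => c j < θ) := fun h => hci (mem_filter.1 h).2
    have h4 : ∑ j ∈ insert i (B.filter fun j => c j < θ), z j ≤ ∑ j, z j :=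
      sum_le_sum_of_subset_of_nonneg (subset_univ _) fun j _ _ => (h1 j).1
    rw [sum_insert hiG, h2] at h4
    have h5 : ((B.filter fun j => c j < θ).card : ℝ) * (1 / a) ≤
        ∑ j ∈ B.filter (fun j => c j < θ), z j := by
      rw [← nsmul_eq_mul]
      exact card_nsmul_le_sum _ _ _ hcon
    have h6 : (1 : ℝ) ≤ ((B.filter fun j => c j < θ).card : ℝ) * (1 / a) := by
      rw [mul_one_div, le_div_iff₀ ha0, one_mul]
      exact_mod_cast hcard
    linarith
  obtain ⟨j, hj, hzj⟩ := hex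
  obtain ⟨hjB, hcj⟩ := mem_filter.1 hj
  have hij : j ≠ i := by
    rintro rfl
    exact hci hcj
  obtain ⟨δ, hδ0, hδ1, hδ2⟩ : ∃ δ : ℝ, 0 < δ ∧ z j + δ ≤ 1 / (a : ℝ) ∧ δ ≤ z i := by
    refine ⟨min (1 / (a : ℝ) - z j) (z i), ?_, ?_, ?_⟩
    · exact lt_min (by linarith) hi
    · have := min_le_left (1 / (a : ℝ) - z j) (z i)
      linarith
    · exact min_le_right _ _
  have hz' : (fun l => (z l + δ * (if l = j then 1 else 0)) + (-δ) * (if l = i then 1 else 0)) ∈
      ZS a B := by
    refine ⟨fun l => ?_, ?_, fun l hl => ?_⟩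
    · show 0 ≤ (z l + δ * (if l = j then 1 else 0)) + (-δ) * (if l = i then 1 else 0) ∧
        (z l + δ * (if l = j then 1 else 0)) + (-δ) * (if l = i then 1 else 0) ≤ 1 / (a : ℝ)
      by_cases hlj : l = j
      · subst hlj
        rw [if_pos rfl, if_neg hij]
        have := (h1 l).1
        constructor <;> linarith
      · rw [if_neg hlj]
        by_cases hli : l = i
        · subst hli
          rw [if_pos rfl]
          have := (h1 l).2
          constructor <;> linarith
        · rw [if_neg hli]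
          simpa using h1 l
    · show ∑ l, ((z l + δ * (if l = j then 1 else 0)) + (-δ) * (if l = i then 1 else 0)) = 1
      rw [sum_bump1 (fun l => z l + δ * (if l = j then 1 else 0)), sum_bump1, h2]
      ring
    · show (z l + δ * (if l = j then 1 else 0)) + (-δ) * (if l = i then 1 else 0) = 0
      have hlj : l ≠ j := fun h => hl (h ▸ hjB)
      have hli : l ≠ i := fun h => hl (h ▸ hiB)
      rw [if_neg hlj, if_neg hli, h3 l hl]
      ring
  have := hmin _ hz'
  rw [sum_bump (fun l => z l + δ * (if l = j then 1 else 0)), sum_bump] at this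
  have h7 : θ ≤ c i := not_lt.1 hci
  nlinarith

end Pool.Agent.Helper9.KS4
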