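import Mathlib

/-!
# Project KS4 (MP_c4bd07_co): weighted splitting lemma

`ω v u` is the weight of the arc from `v` to `u`; `w` bounds the weights, `M` the total weight of the
arcs which leave a vertex. There are classes `κ` such that the load of its own class at every vertex is
at most `(1 + 1/q)² M / K + 3 t w`. No acyclicity is assumed.
-/

set_option autoImplicit false
open Classical

namespace Pool.Agent.Helper9.KS4

def S_WSL : Prop :=
  ∀ (V : Type) [Fintype V] (q w M a g t K : ℕ) (ω : V → V → ℕ),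
    1 ≤ q → 1 ≤ w → 1 ≤ M → 1 ≤ a → 1 ≤ g → K = 3 * (q + 1) * a → 4 * M ≤ 2 ^ g →
    (∀ v u, ω v u ≤ w) → (∀ v, ∑ u, ω v u ≤ M) →
    8 * (M * 2 ^ (g + 6 * (q + 1) * g + 1) * K) * q ^ t ≤ (q + 1) ^ t →
  ∃ κ : V → Fin K, ∀ v,
    q ^ 2 * K * ∑ u ∈ Finset.univ.filter (fun u => κ u = κ v), ω v u ≤
      (q + 1) ^ 2 * M + q ^ 2 * K * (3 * t * w)

end Pool.Agent.Helper9.KS4
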