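import Pool.Agent.Helper51.Girth4.LLL

/-!
# Project KS4 (MP_c4bd07_co): one random step with real probabilities and weights
-/

set_option autoImplicit false
open Classical

namespace Pool.Agent.Helper9.KS4

open Finset Pool.Agent.Helper41.Girth4 Pool.Agent.Helper51.Girth4

/-- The number of naturals `i` with `A ≤ i < B`. -/
theorem card_between (n : ℕ) {A B : ℝ} (hA : 0 ≤ A) (hAB : A ≤ B) :
    (((univ : Finset (Fin n)).filter fun i : Fin n => A ≤ ((i : ℕ) : ℝ) ∧ ((i : ℕ) : ℝ) < B).card : ℝ) ≤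
      B - A + 1 := by
  have h1 : ((univ : Finset (Fin n)).filter fun i : Fin n => A ≤ ((i : ℕ) : ℝ) ∧ ((i : ℕ) : ℝ) < B).card ≤
      (Ico ⌈A⌉₊ ⌈B⌉₊).card := by
    refine card_le_card_of_injOn (fun i => (i : ℕ)) ?_ ?_
    · intro i hi
      have hi' := mem_filter.1 (mem_coe.1 hi)
      rw [coe_Ico, Set.mem_Ico]
      exact ⟨Nat.ceil_le.2 hi'.2.1, Nat.lt_ceil.2 hi'.2.2⟩
    · intro i _ j _ h
      exact Fin.ext h
  rw [Nat.card_Ico] at h1
  have h2 : (((univ : Finset (Fin n)).filter fun i : Fin n => A ≤ ((i : ℕ) : ℝ) ∧ ((i : ℕ) : ℝ) < B).card : ℝ) ≤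
      ((⌈B⌉₊ - ⌈A⌉₊ : ℕ) : ℝ) := by exact_mod_cast h1
  refine h2.trans ?_
  rw [Nat.cast_sub (Nat.ceil_mono hAB)]
  have h3 := Nat.ceil_lt_add_one (hA.trans hAB)
  have h4 := Nat.le_ceil A
  linarith

/-- A map with prescribed frequencies. -/
theorem exists_map (K n : ℕ) (x : Fin K → ℝ) (hx : ∀ j, 0 ≤ x j) (hs : ∑ j, x j = 1) :
    ∃ e : Fin n → Fin K, ∀ i, 0 < x (e i) ∧
      ∀ j, (((univ : Finset (Fin n)).filter fun i => e i = j).card : ℝ) ≤ n * x j + 1 := by
  -- partial sums
  let S : ℕ → ℝ := fun k => ∑ j : Fin K with j.val < k, x j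
  have hS0 : S 0 = 0 := by simp [S]
  have hSK : S K = 1 := by
    rw [← hs]
    refine sum_congr ?_ fun _ _ => rfl
    ext j
    simp
  have hSs : ∀ j : Fin K, S (j.val + 1) = S j.val + x j := by
    intro j
    have : (univ.filter fun j' : Fin K => j'.val < j.val + 1) =
        insert j (univ.filter fun j' : Fin K => j'.val < j.val) := by
      ext j'
      simp only [mem_filter, mem_univ, true_and, mem_insert, Fin.ext_iff]
      omega
    show ∑ j' ∈ univ.filter (fun j' : Fin K => j'.val < j.val + 1), x j' = _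
    rw [this, sum_insert (by simp), add_comm]
  have hSm : ∀ k, 0 ≤ S k := fun k => sum_nonneg fun j _ => hx j
  have hmono : ∀ a b : ℕ, a ≤ b → S a ≤ S b := by
    intro a b hab
    refine sum_le_sum_of_subset_of_nonneg ?_ fun j _ _ => hx j
    intro j hj
    rw [mem_filter] at hj ⊢
    exact ⟨hj.1, lt_of_lt_of_le hj.2 hab⟩
  have hex : ∀ i : Fin n, ∃ j : Fin K, n * S j.val ≤ (i : ℝ) ∧ (i : ℝ) < n * S (j.val + 1) := by
    intro i
    have hi : ((i : ℕ) : ℝ) < n := by exact_mod_cast i.2
    have hP : ∃ k : ℕ, (i : ℝ) < n * S (k + 1) := by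
      by_cases hK : K = 0
      · subst hK
        simp at hs
      · refine ⟨K - 1, ?_⟩
        have : K - 1 + 1 = K := by omega
        rw [this, hSK, mul_one]
        exact hi
    have hk := Nat.find_spec hP
    have hkm := fun m hm => Nat.find_min hP (m := m) hm
    set k := Nat.find hP with hkdef
    have hle : n * S k ≤ (i : ℝ) := by
      cases hk0 : k with
      | zero =>
        rw [hS0, mul_zero]
        positivity
      | succ k' =>
        have := hkm k' (by omega)
        exact not_lt.1 this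
    have hkK : k < K := by
      by_contra hcon
      have h1 : S K ≤ S k := hmono K k (not_lt.1 hcon)
      rw [hSK] at h1
      have : (n : ℝ) * 1 ≤ n * S k := mul_le_mul_of_nonneg_left h1 (Nat.cast_nonneg _)
      linarith
    exact ⟨⟨k, hkK⟩, hle, hk⟩
  choose e he using hex
  refine ⟨e, fun i => ⟨?_, ?_⟩⟩
  · have h1 := he i
    rw [hSs] at h1
    by_contra hcon
    have h2 : x (e i) = 0 := le_antisymm (not_lt.1 hcon) (hx _)
    rw [h2, add_zero] at h1
    linarith [h1.1, h1.2]
  · intro j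
    have h1 : (((univ : Finset (Fin n)).filter fun i => e i = j).card : ℝ) ≤
        (((univ : Finset (Fin n)).filter fun i : Fin n => n * S j.val ≤ ((i : ℕ) : ℝ) ∧
          ((i : ℕ) : ℝ) < n * S (j.val + 1)).card : ℝ) := by
      have : ((univ : Finset (Fin n)).filter fun i => e i = j) ⊆
          ((univ : Finset (Fin n)).filter fun i : Fin n => n * S j.val ≤ ((i : ℕ) : ℝ) ∧
          ((i : ℕ) : ℝ) < n * S (j.val + 1)) := by
        intro i hi
        rw [mem_filter] at hi ⊢
        refine ⟨hi.1, ?_⟩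
        rw [← hi.2]
        exact he i
      exact_mod_cast card_le_card this
    refine h1.trans ((card_between n (mul_nonneg (Nat.cast_nonneg _) (hSm _))
      (mul_le_mul_of_nonneg_left (hmono _ _ (Nat.le_succ _)) (Nat.cast_nonneg _))).trans ?_)
    rw [hSs]
    linarith [mul_add (n : ℝ) (S j.val) (x j)]

/-- The load of the class `j` at `v` from the vertices of `T`. -/
noncomputable def ld {V : Type} {K : ℕ} (ω : V → V → ℕ) (T : Finset V) (κ : V → Fin K) (v : V)
    (j : Fin K) : ℝ :=
  ∑ u ∈ T, if κ u = j then (ω v u : ℝ) else 0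

theorem exp_le_lin {q : ℕ} (hq : 1 ≤ q) {r : ℝ} (h0 : 0 ≤ r) (h1 : r ≤ 1) :
    Real.exp (Real.log (1 + 1 / q) * r) ≤ 1 + r / q := by
  have hq0 : (0 : ℝ) < q := by exact_mod_cast hq
  have hpos : (0 : ℝ) < 1 + 1 / q := by positivity
  rw [← Real.rpow_def_of_pos hpos]
  have := rpow_one_add_le_one_add_mul_self (s := 1 / q) (by
    have : (0 : ℝ) ≤ 1 / q := by positivity
    linarith) h0 h1
  refine this.trans (le_of_eq ?_)
  ring

theorem log_ge {q : ℕ} (hq : 1 ≤ q) : 1 / ((q : ℝ) + 1) ≤ Real.log (1 + 1 / q) := by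
  have hq0 : (0 : ℝ) < q := by exact_mod_cast hq
  have hpos : (0 : ℝ) < 1 + 1 / q := by positivity
  have h := Real.one_sub_inv_le_log_of_pos hpos
  refine le_trans (le_of_eq ?_) h
  field_simp
  ring

/-- The expectation of the exponential of the load. -/
theorem mgf {V : Type} [Fintype V] {q w K n : ℕ} (hq : 1 ≤ q) (hw : 1 ≤ w) (hn : 1 ≤ n)
    (ω : V → V → ℕ) (T : Finset V) (x : V → Fin K → ℝ) (e : V → Fin n → Fin K)
    (hωw : ∀ v u, ω v u ≤ w)
    (he : ∀ u ∈ T, ∀ j, (((univ : Finset (Fin n)).filter fun i => e u i = j).card : ℝ) ≤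
      n * x u j + 1) (v : V) (j : Fin K) :
    ∑ z : V → Fin n, Real.exp (Real.log (1 + 1 / q) *
        (ld ω T (fun u => e u (z u)) v j / w)) ≤
      (n : ℝ) ^ Fintype.card V * Real.exp (∑ u ∈ T, (x u j + 1 / n) * (ω v u / w) / q) := by
  set lam : ℝ := Real.log (1 + 1 / q) with hlam
  have hq0 : (0 : ℝ) < q := by exact_mod_cast hq
  have hw0 : (0 : ℝ) < w := by exact_mod_cast hw
  have hn0 : (0 : ℝ) < n := by exact_mod_cast hn
  let g : V → Fin n → ℝ := fun u i =>
    if u ∈ T then (if e u i = j then Real.exp (lam * (ω v u / w)) else 1) else 1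
  have h1 : ∀ z : V → Fin n, Real.exp (lam * (ld ω T (fun u => e u (z u)) v j / w)) =
      ∏ u, g u (z u) := by
    intro z
    have h2 : lam * (ld ω T (fun u => e u (z u)) v j / w) =
        ∑ u : V, if u ∈ T then (if e u (z u) = j then lam * (ω v u / w) else 0) else 0 := by
      unfold ld
      rw [sum_div, mul_sum, ← sum_filter]
      refine sum_congr (by ext; simp) fun u _ => ?_
      by_cases h : e u (z u) = j
      · rw [if_pos h, if_pos h]
      · rw [if_neg h, if_neg h, zero_div, mul_zero]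
    rw [h2, Real.exp_sum]
    refine prod_congr rfl fun u _ => ?_
    simp only [g]
    by_cases hu : u ∈ T
    · rw [if_pos hu, if_pos hu]
      by_cases h : e u (z u) = j
      · rw [if_pos h, if_pos h]
      · rw [if_neg h, if_neg h, Real.exp_zero]
    · rw [if_neg hu, if_neg hu, Real.exp_zero]
  simp only [h1]
  have h3 : ∑ z : V → Fin n, ∏ u, g u (z u) = ∏ u, ∑ i, g u i := by
    rw [Finset.prod_univ_sum]
    rw [Fintype.piFinset_univ]
  rw [h3]
  have h4 : ∀ u : V, ∑ i, g u i ≤
      n * Real.exp (if u ∈ T then (x u j + 1 / n) * (ω v u / w) / q else 0) := by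
    intro u
    by_cases hu : u ∈ T
    · rw [if_pos hu]
      have hr0 : (0 : ℝ) ≤ ω v u / w := by positivity
      have hr1 : (ω v u : ℝ) / w ≤ 1 := by
        rw [div_le_one hw0]
        exact_mod_cast hωw v u
      have h5 := exp_le_lin hq hr0 hr1
      have h6 : ∑ i, g u i = n +
          (((univ : Finset (Fin n)).filter fun i => e u i = j).card : ℝ) *
            (Real.exp (lam * (ω v u / w)) - 1) := by
        have h7 : ∀ i, g u i = 1 + if e u i = j then (Real.exp (lam * (ω v u / w)) - 1) else 0 := by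
          intro i
          simp only [g]
          rw [if_pos hu]
          by_cases h : e u i = j
          · rw [if_pos h, if_pos h]
            ring
          · rw [if_neg h, if_neg h]
            ring
        simp only [h7]
        rw [sum_add_distrib, ← sum_filter, sum_const, sum_const, card_univ, Fintype.card_fin,
          nsmul_eq_mul, nsmul_eq_mul, mul_one]
      rw [h6]
      have h8 : Real.exp (lam * (ω v u / w)) - 1 ≤ (ω v u / w) / q := by linarith
      have h9 : (((univ : Finset (Fin n)).filter fun i => e u i = j).card : ℝ) *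
          (Real.exp (lam * (ω v u / w)) - 1) ≤ (n * x u j + 1) * ((ω v u / w) / q) := by
        refine (mul_le_mul_of_nonneg_left h8 (Nat.cast_nonneg _)).trans ?_
        exact mul_le_mul_of_nonneg_right (he u hu j) (by positivity)
      have h10 : (n : ℝ) + (n * x u j + 1) * ((ω v u / w) / q) =
          n * (1 + (x u j + 1 / n) * (ω v u / w) / q) := by
        field_simp
      refine (add_le_add le_rfl h9).trans ?_
      rw [h10]
      refine mul_le_mul_of_nonneg_left ?_ hn0.le
      have := Real.add_one_le_exp ((x u j + 1 / n) * (ω v u / w) / q)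
      linarith
    · rw [if_neg hu, Real.exp_zero, mul_one]
      have h7 : ∀ i, g u i = 1 := fun i => by
        simp only [g]
        rw [if_neg hu]
      simp only [h7]
      rw [sum_const, card_univ, Fintype.card_fin, nsmul_eq_mul, mul_one]
  have h5 : ∏ u, ∑ i, g u i ≤
      ∏ u, (n * Real.exp (if u ∈ T then (x u j + 1 / n) * (ω v u / w) / q else 0)) := by
    refine prod_le_prod (fun u _ => sum_nonneg fun i _ => ?_) fun u _ => h4 u
    simp only [g]
    split_ifs
    · exact (Real.exp_pos _).le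
    · exact zero_le_one
    · exact zero_le_one
  refine h5.trans (le_of_eq ?_)
  rw [prod_mul_distrib, prod_const, card_univ, ← Real.exp_sum, ← sum_filter]
  congr 2
  exact sum_congr (by ext; simp) fun u _ => rfl

/-- **One random step.** The vertices `u ∈ T` choose classes with `0 < x u j`; for the readers
`v ∈ R` and every class `j` the load of `j` from `T` is at most `(1 + 1/q)` times its expectation
plus `t w`. -/
theorem wll {V : Type} [Fintype V] (q w M K N t : ℕ) (ω : V → V → ℕ) (T R : Finset V)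
    (x : V → Fin K → ℝ) (hq : 1 ≤ q) (hw : 1 ≤ w) (hM : 1 ≤ M) (hK : 1 ≤ K) (hN : 1 ≤ N)
    (hωw : ∀ v u, ω v u ≤ w) (hωM : ∀ v, ∑ u, ω v u ≤ M)
    (hx : ∀ u ∈ T, (∀ j, 0 ≤ x u j) ∧ ∑ j, x u j = 1)
    (hR : ∀ u ∈ T, (R.filter (fun v => 0 < ω v u)).card ≤ N)
    (ht : 8 * (M * N * K) * q ^ t ≤ (q + 1) ^ t) :
    ∃ κ : V → Fin K, (∀ u ∈ T, 0 < x u (κ u)) ∧ ∀ v ∈ R, ∀ j,
      (q : ℝ) * ld ω T κ v j ≤ (q + 1) * ∑ u ∈ T, ω v u * x u j + q * t * w := by
  have hq0 : (0 : ℝ) < q := by exact_mod_cast hq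
  have hw0 : (0 : ℝ) < w := by exact_mod_cast hw
  have hw1 : (1 : ℝ) ≤ w := by exact_mod_cast hw
  have hq1 : (1 : ℝ) ≤ q := by exact_mod_cast hq
  set n : ℕ := 2 * M + 1 with hn
  have hn1 : 1 ≤ n := by omega
  have hn0 : (0 : ℝ) < n := by exact_mod_cast hn1
  have hMn : (M : ℝ) / n ≤ 1 / 2 := by
    rw [div_le_iff₀ hn0, hn]
    push_cast
    linarith
  have hex : ∀ u : V, ∃ e : Fin n → Fin K, u ∈ T → ∀ i, 0 < x u (e i) ∧
      ∀ j, (((univ : Finset (Fin n)).filter fun i => e i = j).card : ℝ) ≤ n * x u j + 1 := by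
    intro u
    by_cases hu : u ∈ T
    · obtain ⟨e, he⟩ := exists_map K n (x u) (hx u hu).1 (hx u hu).2
      exact ⟨e, fun _ => he⟩
    · exact ⟨fun _ => ⟨0, hK⟩, fun h => absurd h hu⟩
  choose e he using hex
  set lam : ℝ := Real.log (1 + 1 / q) with hlam
  have hlam1 := log_ge hq
  have hlam0 : 0 < lam := lt_of_lt_of_le (by positivity) hlam1
  let μ : V → Fin K → ℝ := fun v j => ∑ u ∈ T, ω v u * x u j
  let A : V × Fin K → (V → Fin n) → Prop := fun vj z => vj.1 ∈ R ∧
    (q + 1) * μ vj.1 vj.2 + q * t * w < q * ld ω T (fun u => e u (z u)) vj.1 vj.2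
  let S : V × Fin K → Set V := fun vj => {u | vj.1 ∈ R ∧ u ∈ T ∧ 0 < ω vj.1 u}
  have : Nonempty (Fin n) := ⟨⟨0, hn1⟩⟩
  have hdep : ∀ vj z z', (∀ i ∈ S vj, z i = z' i) → A vj z → A vj z' := by
    rintro ⟨v, j⟩ z z' hzz ⟨hvR, hlt⟩
    refine ⟨hvR, ?_⟩
    have : ld ω T (fun u => e u (z u)) v j = ld ω T (fun u => e u (z' u)) v j := by
      unfold ld
      refine sum_congr rfl fun u hu => ?_
      by_cases h0 : ω v u = 0
      · rw [h0]
        simp
      · have := hzz u ⟨hvR, hu, Nat.pos_of_ne_zero h0⟩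
        simp only [this]
    show _ < q * ld ω T (fun u => e u (z' u)) v j
    rw [← this]
    exact hlt
  have hPr : ∀ vj, Pr (A vj) ≤ 2 * ((q : ℝ) / (q + 1)) ^ t := by
    rintro ⟨v, j⟩
    by_cases hvR : v ∈ R
    · have hm := mgf (n := n) hq hw hn1 ω T x e hωw (fun u hu j => (he u hu ⟨0, hn1⟩).2 j) v j
      have hexp : ∑ u ∈ T, (x u j + 1 / n) * (ω v u / w) / q ≤ μ v j / (w * q) + 1 / 2 := by
        have h1 : ∑ u ∈ T, (x u j + 1 / n) * (ω v u / w) / q =
            μ v j / (w * q) + (∑ u ∈ T, (ω v u : ℝ)) / n / (w * q) := by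
          simp only [μ]
          rw [sum_div, sum_div, sum_div, ← sum_add_distrib]
          refine sum_congr rfl fun u _ => ?_
          field_simp
        rw [h1]
        have h2 : (∑ u ∈ T, (ω v u : ℝ)) ≤ M := by
          have : ∑ u ∈ T, ω v u ≤ M := (sum_le_sum_of_subset (subset_univ T)).trans (hωM v)
          exact_mod_cast this
        have h3 : (∑ u ∈ T, (ω v u : ℝ)) / n / (w * q) ≤ 1 / 2 := by
          have h4 : (∑ u ∈ T, (ω v u : ℝ)) / n ≤ 1 / 2 :=
            (div_le_div_of_nonneg_right h2 hn0.le).trans hMn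
          have h5 : (0 : ℝ) ≤ (∑ u ∈ T, (ω v u : ℝ)) / n := by positivity
          have h6 : (1 : ℝ) ≤ w * q := by nlinarith
          exact (div_le_self h5 h6).trans h4
        linarith
      have hm2 : ∑ z : V → Fin n, Real.exp (lam * (ld ω T (fun u => e u (z u)) v j / w)) ≤
          (n : ℝ) ^ Fintype.card V * (2 * Real.exp (μ v j / (w * q))) := by
        refine hm.trans ?_
        refine mul_le_mul_of_nonneg_left ?_ (by positivity)
        refine (Real.exp_le_exp.2 hexp).trans ?_
        rw [Real.exp_add, mul_comm]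
        refine mul_le_mul_of_nonneg_right ?_ (Real.exp_pos _).le
        have h1 := Real.one_sub_le_exp_neg (1 / 2)
        rw [Real.exp_neg] at h1
        have h2 := Real.exp_pos (1 / 2)
        rw [← one_div, le_div_iff₀ h2] at h1
        linarith
      -- Markov
      set thr : ℝ := Real.exp (μ v j / (w * q)) * ((q + 1) / q : ℝ) ^ t with hthr
      have hthr0 : 0 < thr := by positivity
      have hthr' : thr = Real.exp (μ v j / (w * q) + lam * t) := by
        rw [hthr, Real.exp_add]
        congr 1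
        rw [mul_comm, Real.exp_nat_mul, hlam, Real.exp_log (by positivity)]
        congr 1
        field_simp
      have hA : ∀ z, A (v, j) z → thr ≤
          Real.exp (lam * (ld ω T (fun u => e u (z u)) v j / w)) := by
        rintro z ⟨_, hlt⟩
        have hlt' : (q + 1) * μ v j + q * t * w < q * ld ω T (fun u => e u (z u)) v j := hlt
        rw [hthr']
        refine Real.exp_le_exp.2 ?_
        have hμ0 : 0 ≤ μ v j := sum_nonneg fun u hu =>
          mul_nonneg (Nat.cast_nonneg _) ((hx u hu).1 j)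
        have h1 : ((q + 1) * μ v j / (q * w) + t) ≤ ld ω T (fun u => e u (z u)) v j / w := by
          rw [le_div_iff₀ hw0]
          have : ((q + 1) * μ v j / (q * w) + t) * w = ((q + 1) * μ v j + q * t * w) / q := by
            field_simp
          rw [this, div_le_iff₀ hq0, mul_comm (ld _ _ _ _ _)]
          exact hlt'.le
        have h2 : lam * ((q + 1) * μ v j / (q * w) + t) ≤
            lam * (ld ω T (fun u => e u (z u)) v j / w) :=
          mul_le_mul_of_nonneg_left h1 hlam0.le
        refine le_trans ?_ h2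
        rw [mul_add]
        refine add_le_add ?_ le_rfl
        have h3 : 1 ≤ lam * (q + 1) := by
          have := mul_le_mul_of_nonneg_right hlam1 (show (0 : ℝ) ≤ q + 1 by positivity)
          rwa [div_mul_cancel₀ _ (by positivity : (q : ℝ) + 1 ≠ 0)] at this
        have h4 : lam * ((q + 1) * μ v j / (q * w)) = (lam * (q + 1)) * (μ v j / (w * q)) := by
          field_simp
        rw [h4]
        exact le_mul_of_one_le_left (by positivity) h3
      rw [Pr_eq_card]
      have hcV : (Fintype.card (V → Fin n) : ℝ) = (n : ℝ) ^ Fintype.card V := by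
        rw [Fintype.card_fun, Fintype.card_fin]
        push_cast
        rfl
      rw [hcV]
      have hcard : ((univ.filter (A (v, j))).card : ℝ) * thr ≤
          (n : ℝ) ^ Fintype.card V * (2 * Real.exp (μ v j / (w * q))) := by
        refine le_trans ?_ hm2
        calc ((univ.filter (A (v, j))).card : ℝ) * thr
            = ∑ z ∈ univ.filter (A (v, j)), thr := by rw [sum_const, nsmul_eq_mul]
          _ ≤ ∑ z ∈ univ.filter (A (v, j)),
              Real.exp (lam * (ld ω T (fun u => e u (z u)) v j / w)) :=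
              sum_le_sum fun z hz => hA z (mem_filter.1 hz).2
          _ ≤ _ := sum_le_sum_of_subset_of_nonneg (filter_subset _ _)
              fun z _ _ => (Real.exp_pos _).le
      rw [div_le_iff₀ (by positivity)]
      have h5 : ((univ.filter (A (v, j))).card : ℝ) ≤
          (n : ℝ) ^ Fintype.card V * (2 * Real.exp (μ v j / (w * q))) / thr := by
        rw [le_div_iff₀ hthr0]
        exact hcard
      refine h5.trans (le_of_eq ?_)
      rw [hthr]
      have h6 : ((q : ℝ) / (q + 1)) ^ t * ((q + 1) / q) ^ t = 1 := by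
        rw [← mul_pow]
        have : ((q : ℝ) / (q + 1)) * ((q + 1) / q) = 1 := by field_simp
        rw [this, one_pow]
      have h7 : ((q + 1) / q : ℝ) ^ t ≠ 0 := by positivity
      have h8 : Real.exp (μ v j / (w * q)) ≠ 0 := (Real.exp_pos _).ne'
      rw [div_eq_iff (mul_ne_zero h8 h7)]
      calc (n : ℝ) ^ Fintype.card V * (2 * Real.exp (μ v j / (w * q)))
          = (n : ℝ) ^ Fintype.card V * (2 * Real.exp (μ v j / (w * q))) *
            (((q : ℝ) / (q + 1)) ^ t * ((q + 1) / q) ^ t) := by rw [h6, mul_one]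
        _ = _ := by ring
    · have : Pr (A (v, j)) = Pr (fun _ : V → Fin n => False) := by
        apply Pr_congr
        intro z
        exact ⟨fun h => hvR h.1, fun h => h.elim⟩
      rw [this, Pr_false]
      positivity
  have hdeg : ∀ vj, Nat.card {vj' // ¬ Disjoint (S vj) (S vj')} ≤ M * N * K := by
    rintro ⟨v, j⟩
    let X : Finset (V × Fin K) := (univ.filter fun u => u ∈ T ∧ 0 < ω v u).biUnion
      fun u => (R.filter fun v' => 0 < ω v' u) ×ˢ (univ : Finset (Fin K))
    have hX : X.card ≤ M * N * K := by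
      refine card_biUnion_le.trans ?_
      have h1 : ∀ u ∈ (univ.filter fun u => u ∈ T ∧ 0 < ω v u),
          ((R.filter fun v' => 0 < ω v' u) ×ˢ (univ : Finset (Fin K))).card ≤ N * K := by
        intro u hu
        rw [card_product, card_univ, Fintype.card_fin]
        exact Nat.mul_le_mul_right _ (hR u (mem_filter.1 hu).2.1)
      refine (sum_le_card_nsmul _ _ _ h1).trans ?_
      rw [smul_eq_mul, mul_assoc]
      refine Nat.mul_le_mul_right _ ?_
      refine le_trans ?_ (hωM v)
      calc (univ.filter fun u => u ∈ T ∧ 0 < ω v u).card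
          = ∑ u ∈ (univ.filter fun u => u ∈ T ∧ 0 < ω v u), 1 := by rw [card_eq_sum_ones]
        _ ≤ ∑ u ∈ (univ.filter fun u => u ∈ T ∧ 0 < ω v u), ω v u :=
            sum_le_sum fun u hu => (mem_filter.1 hu).2.2
        _ ≤ ∑ u, ω v u := sum_le_sum_of_subset (filter_subset _ _)
    refine le_trans ?_ hX
    rw [Nat.card_eq_fintype_card, Fintype.card_subtype]
    apply card_le_card
    rintro ⟨v', j'⟩ hv'
    rw [mem_filter] at hv'
    obtain ⟨u, hu, hu'⟩ := Set.not_disjoint_iff.1 hv'.2
    rw [mem_biUnion]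
    refine ⟨u, mem_filter.2 ⟨mem_univ _, hu.2.1, hu.2.2⟩, ?_⟩
    rw [mem_product]
    exact ⟨mem_filter.2 ⟨hu'.1, hu'.2.2⟩, mem_univ _⟩
  have h4 : 4 * (2 * ((q : ℝ) / (q + 1)) ^ t) * ((M * N * K : ℕ) : ℝ) ≤ 1 := by
    have h5 : (8 * (M * N * K : ℕ) * (q : ℝ) ^ t) ≤ (q + 1) ^ t := by
      exact_mod_cast ht
    have h6 : (0 : ℝ) < (q + 1) ^ t := by positivity
    rw [div_pow]
    have h7 : 4 * (2 * ((q : ℝ) ^ t / (q + 1) ^ t)) * ((M * N * K : ℕ) : ℝ) =
        (8 * (M * N * K : ℕ) * (q : ℝ) ^ t) / (q + 1) ^ t := by ring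
    rw [h7, div_le_one h6]
    exact h5
  obtain ⟨z, hz⟩ := stmtLLL S A hdep _ (M * N * K) hPr
    (Nat.one_le_iff_ne_zero.2 (by positivity)) hdeg h4
  refine ⟨fun u => e u (z u), fun u hu => (he u hu (z u)).1, ?_⟩
  intro v hv j
  by_contra hcon
  exact hz (v, j) ⟨hv, not_le.1 hcon⟩

end Pool.Agent.Helper9.KS4
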