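import Pool.Agent.Helper30.Brouwer.Kakutani

/-!
# Project KS4 (MP_c4bd07_co): equilibria for linear costs
-/

set_option autoImplicit false

namespace Pool.Agent.Helper9.KS4

open Set

/-- **Nash equilibrium for linear costs.** Every player `i` chooses a vector in a nonempty compact
convex set `S i`, and pays `∑ j, x i j * C x i j`, where the prices `C x i` depend continuously on the
choices of all players. There is an equilibrium. -/
theorem nash {I J : Type} [Fintype I] [Fintype J] (S : I → Set (J → ℝ))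
    (hS : ∀ i, IsCompact (S i)) (hSc : ∀ i, Convex ℝ (S i)) (hSn : ∀ i, (S i).Nonempty)
    (C : (I → J → ℝ) → I → J → ℝ) (hC : Continuous C) :
    ∃ x : I → J → ℝ, (∀ i, x i ∈ S i) ∧
      ∀ i, ∀ z ∈ S i, ∑ j, x i j * C x i j ≤ ∑ j, z j * C x i j := by
  classical
  let K : Set (I → J → ℝ) := Set.pi univ S
  let R : Set ((I → J → ℝ) × (I → J → ℝ)) :=
    {q | ∀ i, ∀ z ∈ S i, ∑ j, q.2 i j * C q.1 i j ≤ ∑ j, z j * C q.1 i j}
  have hK : IsCompact K := isCompact_univ_pi hS
  have hKc : Convex ℝ K := convex_pi fun i _ => hSc i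
  have hKn : K.Nonempty := by
    choose f hf using hSn
    exact ⟨f, fun i _ => hf i⟩
  have hCij : ∀ i j, Continuous fun q : (I → J → ℝ) × (I → J → ℝ) => C q.1 i j := by
    intro i j
    exact (continuous_apply j).comp ((continuous_apply i).comp (hC.comp continuous_fst))
  have hRc : IsClosed R := by
    have : R = ⋂ i, ⋂ z ∈ S i, {q : (I → J → ℝ) × (I → J → ℝ) |
        ∑ j, q.2 i j * C q.1 i j ≤ ∑ j, z j * C q.1 i j} := by
      ext q
      simp only [mem_iInter]
      rfl
    rw [this]
    refine isClosed_iInter fun i => isClosed_iInter fun z => isClosed_iInter fun _ => ?_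
    refine isClosed_le ?_ ?_
    · refine continuous_finsetSum _ fun j _ => Continuous.mul ?_ (hCij i j)
      exact (continuous_apply j).comp ((continuous_apply i).comp continuous_snd)
    · exact continuous_finsetSum _ fun j _ => Continuous.mul continuous_const (hCij i j)
  have hR : ∀ x ∈ K, ∃ y ∈ K, (x, y) ∈ R := by
    intro x _
    have h1 : ∀ i, ∃ y ∈ S i, ∀ z ∈ S i, ∑ j, y j * C x i j ≤ ∑ j, z j * C x i j := by
      intro i
      have hcont : ContinuousOn (fun y : J → ℝ => ∑ j, y j * C x i j) (S i) := by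
        refine Continuous.continuousOn ?_
        exact continuous_finsetSum _ fun j _ => (continuous_apply j).mul continuous_const
      obtain ⟨y, hy, hmin⟩ := (hS i).exists_isMinOn (hSn i) hcont
      exact ⟨y, hy, fun z hz => hmin hz⟩
    choose y hy hmin using h1
    exact ⟨y, fun i _ => hy i, fun i z hz => hmin i z hz⟩
  have hconv : ∀ x ∈ K, Convex ℝ {y | y ∈ K ∧ (x, y) ∈ R} := by
    intro x _
    rw [convex_iff_forall_pos]
    rintro y ⟨hy, hyR⟩ y' ⟨hy', hyR'⟩ a b ha hb hab
    refine ⟨hKc hy hy' ha.le hb.le hab, ?_⟩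
    intro i z hz
    have e1 := hyR i z hz
    have e2 := hyR' i z hz
    have e3 : ∑ j, (a • y + b • y') i j * C x i j =
        a * ∑ j, y i j * C x i j + b * ∑ j, y' i j * C x i j := by
      rw [Finset.mul_sum, Finset.mul_sum, ← Finset.sum_add_distrib]
      refine Finset.sum_congr rfl fun j _ => ?_
      simp only [Pi.add_apply, Pi.smul_apply, smul_eq_mul]
      ring
    show ∑ j, (a • y + b • y') i j * C x i j ≤ _
    rw [e3]
    calc a * ∑ j, y i j * C x i j + b * ∑ j, y' i j * C x i j
        ≤ a * ∑ j, z j * C x i j + b * ∑ j, z j * C x i j :=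
          add_le_add (mul_le_mul_of_nonneg_left e1 ha.le) (mul_le_mul_of_nonneg_left e2 hb.le)
      _ = ∑ j, z j * C x i j := by rw [← add_mul, hab, one_mul]
  obtain ⟨x, hx, hxR⟩ := Pool.Agent.Helper30.Brouwer.kakutani_fd K R hK hKc hKn hRc hR hconv
  exact ⟨x, fun i => hx i (mem_univ i), hxR⟩

end Pool.Agent.Helper9.KS4
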