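import Pool.Agent.Helper9.KS4.Exch

/-!
# Project KS4: one stage
-/

set_option autoImplicit false

namespace Pool.Agent.Helper9.KS4

open Finset Classical

/-- The initial segment which ends `k a` before `K`. -/
def P (K a k : ℕ) : Finset (Fin K) := univ.filter fun j => j.val + k * a < K

variable {V : Type} [Fintype V] {K : ℕ}

/-- The load known to the clean part. -/
noncomputable def Cc (ω : V → V → ℕ) (σ : V → ℕ) (κ : V → Fin K) (x y : V → Fin K → ℝ) (v : V)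
    (j : Fin K) : ℝ :=
  ∑ u, (ω v u : ℝ) * (if σ u + 2 ≤ σ v then (if κ u = j then 1 else 0)
    else if σ u < σ v then x u j else if σ u = σ v then y u j else 0)

/-- The full load. -/
noncomputable def Fc (ω : V → V → ℕ) (σ : V → ℕ) (κ : V → Fin K) (x y : V → Fin K → ℝ) (v : V)
    (j : Fin K) : ℝ :=
  ∑ u, (ω v u : ℝ) * (if σ u + 2 ≤ σ v then (if κ u = j then 1 else 0)
    else if σ u ≤ σ v then x u j else y u j)

/-- The invariant of `y`. -/
def YOK (ω : V → V → ℕ) (σ dep : V → ℕ) (a : ℕ) (θ : ℝ) (κ : V → Fin K) (x y : V → Fin K → ℝ)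
    (v : V) : Prop :=
  y v ∈ YS a (P K a (dep v - 1)) ∧ (∀ j, 0 < y v j → Cc ω σ κ x y v j ≤ θ) ∧
    (∑ j, y v j = 1 ∨
      (univ.filter fun j => j ∉ P K a (dep v - 1) ∧ Cc ω σ κ x y v j < θ).card < a)

/-- The invariant of `x`. -/
def XOK (ω : V → V → ℕ) (σ dep : V → ℕ) (Λ : ℕ) (θ : ℝ) (κ : V → Fin K)
    (x y : V → Fin K → ℝ) (v : V) : Prop :=
  (∀ j, 0 ≤ x v j) ∧ ∑ j, x v j = 1 ∧ (∀ j, 0 < x v j → Fc ω σ κ x y v j ≤ θ) ∧
    (dep v = Λ → x v = y v)

theorem Cc_congr {ω : V → V → ℕ} {σ : V → ℕ} {κ κ' : V → Fin K} {x x' y y' : V → Fin K → ℝ} {v : V}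
    (hκ : ∀ u, σ u + 2 ≤ σ v → κ u = κ' u) (hx : ∀ u, σ u + 1 = σ v → x u = x' u)
    (hy : ∀ u, σ u = σ v → y u = y' u) (j : Fin K) :
    Cc ω σ κ x y v j = Cc ω σ κ' x' y' v j := by
  unfold Cc
  refine sum_congr rfl fun u _ => ?_
  by_cases h1 : σ u + 2 ≤ σ v
  · rw [if_pos h1, if_pos h1, hκ u h1]
  · rw [if_neg h1, if_neg h1]
    by_cases h2 : σ u < σ v
    · rw [if_pos h2, if_pos h2, hx u (by omega)]
    · rw [if_neg h2, if_neg h2]
      by_cases h3 : σ u = σ v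
      · rw [if_pos h3, if_pos h3, hy u h3]
      · rw [if_neg h3, if_neg h3]

theorem Fc_congr {ω : V → V → ℕ} {σ : V → ℕ} {κ κ' : V → Fin K} {x x' y y' : V → Fin K → ℝ} {v : V}
    (h1 : ∀ v u, 0 < ω v u → σ u ≤ σ v + 1)
    (hκ : ∀ u, σ u + 2 ≤ σ v → κ u = κ' u) (hx : ∀ u, σ v ≤ σ u + 1 → σ u ≤ σ v → x u = x' u)
    (hy : ∀ u, σ u = σ v + 1 → y u = y' u) (j : Fin K) :
    Fc ω σ κ x y v j = Fc ω σ κ' x' y' v j := by
  unfold Fc
  refine sum_congr rfl fun u _ => ?_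
  rcases Nat.eq_zero_or_pos (ω v u) with h0 | h0
  · rw [h0]
    simp
  have hs := h1 v u h0
  by_cases h1 : σ u + 2 ≤ σ v
  · rw [if_pos h1, if_pos h1, hκ u h1]
  · rw [if_neg h1, if_neg h1]
    by_cases h2 : σ u ≤ σ v
    · rw [if_pos h2, if_pos h2, hx u (by omega) h2]
    · rw [if_neg h2, if_neg h2, hy u (by omega)]

theorem P_mono {K a k l : ℕ} (h : k ≤ l) {j : Fin K} (hj : j ∈ P K a l) : j ∈ P K a k := by
  unfold P at *
  rw [mem_filter] at *
  refine ⟨mem_univ _, ?_⟩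
  have := Nat.mul_le_mul_right a h
  omega

theorem P_zero {K a : ℕ} (j : Fin K) : j ∈ P K a 0 := by
  unfold P
  rw [mem_filter]
  exact ⟨mem_univ _, by simp⟩

theorem P_diff_card {K a k : ℕ} (hk : 1 ≤ k) :
    (univ.filter fun j : Fin K => j ∈ P K a (k - 1) ∧ j ∉ P K a k).card ≤ a := by
  obtain ⟨k, rfl⟩ : ∃ k', k = k' + 1 := ⟨k - 1, by omega⟩
  have h1 : (univ.filter fun j : Fin K => j ∈ P K a (k + 1 - 1) ∧ j ∉ P K a (k + 1)).card ≤
      (Ico (K - (k + 1) * a) (K - (k + 1) * a + a)).card := by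
    refine card_le_card_of_injOn (fun j => (j : ℕ)) ?_ ?_
    · intro j hj
      rw [mem_coe, mem_filter] at hj
      obtain ⟨-, h2, h3⟩ := hj
      unfold P at h2 h3
      rw [mem_filter] at h2 h3
      have h4 : ¬ (j.val + (k + 1) * a < K) := fun h => h3 ⟨mem_univ _, h⟩
      have h5 := h2.2
      rw [coe_Ico, Set.mem_Ico]
      have e : (k + 1) * a = k * a + a := by ring
      rw [Nat.add_sub_cancel] at h5
      constructor
      · show K - (k + 1) * a ≤ j.val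
        omega
      · show j.val < K - (k + 1) * a + a
        rw [e] at *
        omega
    · intro i _ j _ h
      exact Fin.ext h
  rw [Nat.card_Ico] at h1
  omega

theorem Fc_nonneg {ω : V → V → ℕ} {σ : V → ℕ} {κ : V → Fin K} {x y : V → Fin K → ℝ} {v : V}
    (hx : ∀ u, 0 < ω v u → σ v ≤ σ u + 1 → σ u ≤ σ v → ∀ j, 0 ≤ x u j)
    (hy : ∀ u, 0 < ω v u → σ v < σ u → ∀ j, 0 ≤ y u j) (j : Fin K) :
    0 ≤ Fc ω σ κ x y v j := by
  unfold Fc
  refine sum_nonneg fun u _ => ?_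
  rcases Nat.eq_zero_or_pos (ω v u) with h0 | h0
  · rw [h0]
    simp
  refine mul_nonneg (Nat.cast_nonneg _) ?_
  by_cases h1 : σ u + 2 ≤ σ v
  · rw [if_pos h1]
    split_ifs <;> norm_num
  · rw [if_neg h1]
    by_cases h2 : σ u ≤ σ v
    · rw [if_pos h2]
      exact hx u h0 (by omega) h2 j
    · rw [if_neg h2]
      exact hy u h0 (by omega) j

theorem Fc_sum_le {ω : V → V → ℕ} {σ : V → ℕ} {κ : V → Fin K} {x y : V → Fin K → ℝ} {v : V} {M : ℕ}
    (hM : ∑ u, ω v u ≤ M)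
    (hx : ∀ u, 0 < ω v u → σ v ≤ σ u + 1 → σ u ≤ σ v → ∑ j, x u j ≤ 1)
    (hy : ∀ u, 0 < ω v u → σ v < σ u → ∑ j, y u j ≤ 1) :
    ∑ j, Fc ω σ κ x y v j ≤ M := by
  unfold Fc
  rw [sum_comm]
  have h : ∑ u, (ω v u : ℝ) ≤ M := by exact_mod_cast hM
  refine le_trans (sum_le_sum fun u _ => ?_) h
  rw [← mul_sum]
  rcases Nat.eq_zero_or_pos (ω v u) with h0 | h0
  · rw [h0]
    simp
  refine mul_le_of_le_one_right (Nat.cast_nonneg _) ?_
  by_cases h1 : σ u + 2 ≤ σ v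
  · simp only [if_pos h1]
    rw [sum_ite_eq univ (κ u)]
    simp
  · simp only [if_neg h1]
    by_cases h2 : σ u ≤ σ v
    · simp only [if_pos h2]
      exact hx u h0 (by omega) h2
    · simp only [if_neg h2]
      exact hy u h0 (by omega)

/-- Markov. -/
theorem markov {q a M : ℕ} (hq : 1 ≤ q) (ha : 1 ≤ a) (hM : 1 ≤ M) (hK : K = 3 * (q + 1) * a)
    {θ : ℝ} (hθ : θ = (1 + 1 / q) * M / K) {f : Fin K → ℝ} (hf : ∀ j, 0 ≤ f j) (hs : ∑ j, f j ≤ M) :
    3 * a ≤ (univ.filter fun j => f j < θ).card := by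
  have hq0 : (0 : ℝ) < q := by exact_mod_cast hq
  have hM0 : (0 : ℝ) < M := by exact_mod_cast hM
  have hK1 : 1 ≤ K := by rw [hK]; exact Nat.mul_pos (by omega) (by omega)
  have hK0 : (0 : ℝ) < K := by exact_mod_cast hK1
  have hθ0 : 0 < θ := by rw [hθ]; positivity
  have hc : (univ.filter fun j => f j < θ).card + (univ.filter fun j => ¬ f j < θ).card = K := by
    rw [card_filter_add_card_filter_not, card_univ, Fintype.card_fin]
  have h1 : ((univ.filter fun j => ¬ f j < θ).card : ℝ) * θ ≤ M := by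
    refine le_trans ?_ hs
    rw [← nsmul_eq_mul]
    refine le_trans (card_nsmul_le_sum _ f _ fun j hj => not_lt.1 (mem_filter.1 hj).2) ?_
    exact sum_le_sum_of_subset_of_nonneg (subset_univ _) fun j _ _ => hf j
  generalize (univ.filter fun j => ¬ f j < θ).card = N at h1 hc
  have h2 : (N : ℝ) * (q + 1) ≤ q * K := by
    have h3 : θ = (q + 1) / (q * K) * M := by
      rw [hθ]
      field_simp
    rw [h3] at h1
    have h4 : (N : ℝ) * ((q + 1) / (q * K)) ≤ 1 := by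
      by_contra hcon
      rw [not_le] at hcon
      have := mul_lt_mul_of_pos_right hcon hM0
      linarith
    have h5 := mul_le_mul_of_nonneg_right h4 (mul_pos hq0 hK0).le
    have h6 : (N : ℝ) * ((q + 1) / (q * K)) * (q * K) = N * (q + 1) := by
      field_simp
    rw [h6] at h5
    linarith
  have h3 : N * (q + 1) ≤ q * K := by exact_mod_cast h2
  have h4 : N ≤ 3 * q * a := by
    by_contra hcon
    rw [not_le] at hcon
    have h5 : (3 * q * a + 1) * (q + 1) ≤ N * (q + 1) :=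
      Nat.mul_le_mul_right _ hcon
    have h6 : q * K = 3 * q * a * (q + 1) := by rw [hK]; ring
    have h7 : (3 * q * a + 1) * (q + 1) = 3 * q * a * (q + 1) + (q + 1) := by ring
    omega
  have h8 : K = 3 * q * a + 3 * a := by rw [hK]; ring
  omega

end Pool.Agent.Helper9.KS4
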