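import Pool.Agent.Helper9.KS4.Stage

/-!
# Project KS4: one stage, existence
-/

set_option autoImplicit false

namespace Pool.Agent.Helper9.KS4

open Finset Classical

variable {V : Type} [Fintype V] {K : ℕ}

/-- The point of `ZS`. -/
theorem ZS_nonempty {a k Λ : ℕ} (ha : 1 ≤ a) (hk : k < Λ) (hK : K = Λ * a) :
    (ZS a (P K a k)).Nonempty := by
  have ha0 : (0 : ℝ) < a := by exact_mod_cast ha
  have haK : a ≤ K := by
    rw [hK]
    exact Nat.le_mul_of_pos_left a (by omega)
  refine ⟨fun j => if j.val < a then 1 / (a : ℝ) else 0, fun j => ?_, ?_, fun j hj => ?_⟩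
  · show 0 ≤ (if j.val < a then 1 / (a : ℝ) else 0) ∧ (if j.val < a then 1 / (a : ℝ) else 0) ≤ 1 / (a : ℝ)
    split_ifs
    · exact ⟨by positivity, le_refl _⟩
    · exact ⟨le_refl _, by positivity⟩
  · rw [← sum_filter, sum_const, nsmul_eq_mul]
    have : (univ.filter fun j : Fin K => j.val < a).card = a := by
      rw [Fin.card_filter_val_lt]
      exact min_eq_right haK
    rw [this]
    field_simp
  · show (if j.val < a then 1 / (a : ℝ) else 0) = 0
    rw [if_neg]
    intro h
    apply hj
    unfold P
    rw [mem_filter]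
    refine ⟨mem_univ _, ?_⟩
    have : (k + 1) * a ≤ Λ * a := Nat.mul_le_mul_right a hk
    have e : (k + 1) * a = k * a + a := by ring
    omega

theorem YS_nonempty (a : ℕ) (B : Finset (Fin K)) : (YS a B).Nonempty :=
  ⟨fun _ => 0, fun _ => ⟨le_refl _, by positivity⟩, by simp, fun _ _ => rfl⟩

theorem stage (ω : V → V → ℕ) (σ dep : V → ℕ) (q a Λ M : ℕ) (θ : ℝ) (hq : 1 ≤ q) (ha : 1 ≤ a)
    (hM : 1 ≤ M) (hΛ : Λ = 3 * (q + 1)) (hK : K = Λ * a)
    (hdep : ∀ v, 1 ≤ dep v ∧ dep v ≤ Λ) (hωM : ∀ v, ∑ u, ω v u ≤ M)
    (h1 : ∀ v u, 0 < ω v u → σ u ≤ σ v + 1)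
    (h2 : ∀ v u, 0 < ω v u → 2 ≤ dep v → σ u ≤ σ v ∧ (σ u = σ v → dep v ≤ dep u + 1))
    (hθ : θ = (1 + 1 / q) * M / K)
    (s : ℕ) (κ : V → Fin K) (x y : V → Fin K → ℝ)
    (hx : ∀ v, σ v + 1 = s → (∀ j, 0 ≤ x v j) ∧ ∑ j, x v j = 1)
    (hy : ∀ v, σ v = s → YOK ω σ dep a θ κ x y v) :
    ∃ x' y' : V → Fin K → ℝ, (∀ v, σ v ≠ s → x' v = x v) ∧ (∀ v, σ v ≠ s + 1 → y' v = y v) ∧
      (∀ v, σ v = s → XOK ω σ dep Λ θ κ x' y' v) ∧
      (∀ v, σ v = s + 1 → YOK ω σ dep a θ κ x' y' v) := by
  have ha0 : (0 : ℝ) < a := by exact_mod_cast ha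
  let xt : (V → Fin K → ℝ) → V → Fin K → ℝ := fun X u j =>
    if σ u = s then y u j + (1 - ∑ i, y u i) * X u j else x u j
  let yt : (V → Fin K → ℝ) → V → Fin K → ℝ := fun X u j => if σ u = s + 1 then X u j else y u j
  let St : V → Set (Fin K → ℝ) := fun v =>
    if σ v = s then (if dep v = Λ then {0} else ZS a (P K a (dep v)))
    else if σ v = s + 1 then YS a (P K a (dep v - 1)) else {0}
  let Cst : (V → Fin K → ℝ) → V → Fin K → ℝ := fun X v j =>
    if σ v = s then Fc ω σ κ (xt X) (yt X) v j
    else if σ v = s + 1 then Cc ω σ κ (xt X) (yt X) v j - θ else 0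
  have hxt : ∀ u j, Continuous fun X => xt X u j := by
    intro u j
    show Continuous fun X : V → Fin K → ℝ =>
      if σ u = s then y u j + (1 - ∑ i, y u i) * X u j else x u j
    by_cases h : σ u = s
    · simp only [if_pos h]
      fun_prop
    · simp only [if_neg h]
      fun_prop
  have hyt : ∀ u j, Continuous fun X => yt X u j := by
    intro u j
    show Continuous fun X : V → Fin K → ℝ => if σ u = s + 1 then X u j else y u j
    by_cases h : σ u = s + 1
    · simp only [if_pos h]
      fun_prop
    · simp only [if_neg h]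
      fun_prop
  have hFc : ∀ v j, Continuous fun X => Fc ω σ κ (xt X) (yt X) v j := by
    intro v j
    unfold Fc
    refine continuous_finsetSum _ fun u _ => continuous_const.mul ?_
    by_cases h1 : σ u + 2 ≤ σ v
    · simp only [if_pos h1]
      exact continuous_const
    · simp only [if_neg h1]
      by_cases h2 : σ u ≤ σ v
      · simp only [if_pos h2]
        exact hxt u j
      · simp only [if_neg h2]
        exact hyt u j
  have hCc : ∀ v j, Continuous fun X => Cc ω σ κ (xt X) (yt X) v j := by
    intro v j
    unfold Cc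
    refine continuous_finsetSum _ fun u _ => continuous_const.mul ?_
    by_cases h1 : σ u + 2 ≤ σ v
    · simp only [if_pos h1]
      exact continuous_const
    · simp only [if_neg h1]
      by_cases h2 : σ u < σ v
      · simp only [if_pos h2]
        exact hxt u j
      · simp only [if_neg h2]
        by_cases h3 : σ u = σ v
        · simp only [if_pos h3]
          exact hyt u j
        · simp only [if_neg h3]
          exact continuous_const
  have hCst : Continuous Cst := by
    refine continuous_pi fun v => continuous_pi fun j => ?_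
    show Continuous fun X => if σ v = s then Fc ω σ κ (xt X) (yt X) v j
      else if σ v = s + 1 then Cc ω σ κ (xt X) (yt X) v j - θ else 0
    by_cases h1 : σ v = s
    · simp only [if_pos h1]
      exact hFc v j
    · simp only [if_neg h1]
      by_cases h2 : σ v = s + 1
      · simp only [if_pos h2]
        exact (hCc v j).sub continuous_const
      · simp only [if_neg h2]
        exact continuous_const
  have hSt1 : ∀ v, IsCompact (St v) := by
    intro v
    show IsCompact (if σ v = s then (if dep v = Λ then {0} else ZS a (P K a (dep v)))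
      else if σ v = s + 1 then YS a (P K a (dep v - 1)) else {0})
    split_ifs
    · exact isCompact_singleton
    · exact ZS_compact _ _
    · exact YS_compact _ _
    · exact isCompact_singleton
  have hSt2 : ∀ v, Convex ℝ (St v) := by
    intro v
    show Convex ℝ (if σ v = s then (if dep v = Λ then {0} else ZS a (P K a (dep v)))
      else if σ v = s + 1 then YS a (P K a (dep v - 1)) else {0})
    split_ifs
    · exact convex_singleton _
    · exact ZS_convex _ _
    · exact YS_convex _ _
    · exact convex_singleton _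
  have hSt3 : ∀ v, (St v).Nonempty := by
    intro v
    show (if σ v = s then (if dep v = Λ then {0} else ZS a (P K a (dep v)))
      else if σ v = s + 1 then YS a (P K a (dep v - 1)) else {0}).Nonempty
    split_ifs with h1 h2
    · exact Set.singleton_nonempty _
    · exact ZS_nonempty ha (lt_of_le_of_ne (hdep v).2 h2) hK
    · exact YS_nonempty _ _
    · exact Set.singleton_nonempty _
  obtain ⟨X, hX, hmin⟩ := nash St hSt1 hSt2 hSt3 Cst hCst
  -- consequences for the strategies
  have hX1 : ∀ v, σ v = s → dep v = Λ → ∀ j, X v j = 0 := by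
    intro v h1 h2 j
    have h := hX v
    have e : St v = {0} := by
      show (if σ v = s then (if dep v = Λ then {0} else ZS a (P K a (dep v)))
        else if σ v = s + 1 then YS a (P K a (dep v - 1)) else {0}) = {0}
      rw [if_pos h1, if_pos h2]
    rw [e, Set.mem_singleton_iff] at h
    rw [h]
    rfl
  have hX2e : ∀ v, σ v = s → dep v ≠ Λ → St v = ZS a (P K a (dep v)) := by
    intro v h1 h2
    show (if σ v = s then (if dep v = Λ then {0} else ZS a (P K a (dep v)))
        else if σ v = s + 1 then YS a (P K a (dep v - 1)) else {0}) = _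
    rw [if_pos h1, if_neg h2]
  have hX3e : ∀ v, σ v = s + 1 → St v = YS a (P K a (dep v - 1)) := by
    intro v h1
    show (if σ v = s then (if dep v = Λ then {0} else ZS a (P K a (dep v)))
        else if σ v = s + 1 then YS a (P K a (dep v - 1)) else {0}) = _
    rw [if_neg (by omega), if_pos h1]
  have hX2 : ∀ v, σ v = s → dep v ≠ Λ → X v ∈ ZS a (P K a (dep v)) := by
    intro v h1 h2
    rw [← hX2e v h1 h2]
    exact hX v
  have hX3 : ∀ v, σ v = s + 1 → X v ∈ YS a (P K a (dep v - 1)) := by
    intro v h1
    rw [← hX3e v h1]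
    exact hX v
  have hXnn : ∀ v, σ v = s → ∀ j, 0 ≤ X v j := by
    intro v h1 j
    by_cases h2 : dep v = Λ
    · rw [hX1 v h1 h2 j]
    · exact ((hX2 v h1 h2).1 j).1
  have hXoff : ∀ v, σ v = s → ∀ j, j ∉ P K a (dep v) → X v j = 0 := by
    intro v h1 j hj
    by_cases h2 : dep v = Λ
    · exact hX1 v h1 h2 j
    · exact (hX2 v h1 h2).2.2 j hj
  have hXsum : ∀ v, σ v = s → ∑ j, X v j ≤ 1 := by
    intro v h1
    by_cases h2 : dep v = Λ
    · rw [sum_eq_zero fun j _ => hX1 v h1 h2 j]
      exact zero_le_one
    · exact (hX2 v h1 h2).2.1.le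
  have hxs : ∀ u, σ u = s → ∀ j, xt X u j = y u j + (1 - ∑ i, y u i) * X u j := by
    intro u hu j
    show (if σ u = s then y u j + (1 - ∑ i, y u i) * X u j else x u j) = _
    rw [if_pos hu]
  have hxn : ∀ u, σ u ≠ s → xt X u = x u := by
    intro u hu
    funext j
    show (if σ u = s then y u j + (1 - ∑ i, y u i) * X u j else x u j) = _
    rw [if_neg hu]
  have hys : ∀ u, σ u = s + 1 → yt X u = X u := by
    intro u hu
    funext j
    show (if σ u = s + 1 then X u j else y u j) = _
    rw [if_pos hu]
  have hyn : ∀ u, σ u ≠ s + 1 → yt X u = y u := by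
    intro u hu
    funext j
    show (if σ u = s + 1 then X u j else y u j) = _
    rw [if_neg hu]
  refine ⟨xt X, yt X, hxn, hyn, ?_, ?_⟩
  · intro v hv
    obtain ⟨⟨yb, ysum, yB⟩, yC, yfull⟩ := hy v hv
    have hdv := hdep v
    -- Fc and Cc agree outside P (dep v - 1)
    have hFC : ∀ j, j ∉ P K a (dep v - 1) →
        Fc ω σ κ (xt X) (yt X) v j = Cc ω σ κ x y v j := by
      intro j hj
      have hd2 : 2 ≤ dep v := by
        by_contra hcon
        have : dep v = 1 := by omega
        rw [this] at hj
        exact hj (P_zero j)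
      unfold Fc Cc
      refine sum_congr rfl fun u _ => ?_
      rcases Nat.eq_zero_or_pos (ω v u) with h0 | h0
      · rw [h0]
        simp
      obtain ⟨e1, e2⟩ := h2 v u h0 hd2
      by_cases c1 : σ u + 2 ≤ σ v
      · rw [if_pos c1, if_pos c1]
      · rw [if_neg c1, if_neg c1, if_pos e1]
        by_cases c2 : σ u < σ v
        · rw [if_pos c2, hxn u (by omega)]
        · have c3 : σ u = σ v := by omega
          rw [if_neg c2, if_pos c3, hxs u (by omega), hXoff u (by omega) j, mul_zero, add_zero]
          intro hcon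
          exact hj (P_mono (by have := e2 c3; omega) hcon)
    have hp1 : ∀ u, σ u = s → 0 ≤ 1 - ∑ i, y u i := by
      intro u hu
      have := (hy u hu).1.2.1
      linarith
    have hx'0 : ∀ u, σ u = s → ∀ j, 0 ≤ xt X u j := by
      intro u hu j
      rw [hxs u hu j]
      exact add_nonneg ((hy u hu).1.1 j).1 (mul_nonneg (hp1 u hu) (hXnn u hu j))
    have hF0 : ∀ j, 0 ≤ Fc ω σ κ (xt X) (yt X) v j := by
      apply Fc_nonneg
      · intro u _ c1 c2 j
        by_cases c3 : σ u = s
        · exact hx'0 u c3 j
        · rw [hxn u c3]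
          exact (hx u (by omega)).1 j
      · intro u h0 c1 j
        have := h1 v u h0
        rw [hys u (by omega)]
        exact ((hX3 u (by omega)).1 j).1
    have hFs : ∑ j, Fc ω σ κ (xt X) (yt X) v j ≤ M := by
      apply Fc_sum_le (hωM v)
      · intro u _ c1 c2
        by_cases c3 : σ u = s
        · rw [sum_congr rfl fun j _ => hxs u c3 j, sum_add_distrib, ← mul_sum]
          have := mul_le_mul_of_nonneg_left (hXsum u c3) (hp1 u c3)
          linarith
        · rw [hxn u c3]
          exact (hx u (by omega)).2.le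
      · intro u h0 c1
        have := h1 v u h0
        rw [hys u (by omega)]
        exact (hX3 u (by omega)).2.1
    have h3a := markov hq ha hM (by rw [hK, hΛ]) hθ hF0 hFs
    -- tainted vertices
    have htaint : ∑ j, y v j ≠ 1 →
        a < ((P K a (dep v)).filter fun j => Fc ω σ κ (xt X) (yt X) v j < θ).card := by
      intro hne
      have hlt := yfull.resolve_left hne
      have hsub : (univ.filter fun j => Fc ω σ κ (xt X) (yt X) v j < θ) ⊆
          ((univ.filter fun j => j ∉ P K a (dep v - 1) ∧ Cc ω σ κ x y v j < θ) ∪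
            (univ.filter fun j : Fin K => j ∈ P K a (dep v - 1) ∧ j ∉ P K a (dep v))) ∪
            ((P K a (dep v)).filter fun j => Fc ω σ κ (xt X) (yt X) v j < θ) := by
        intro j hj
        have hj' := (mem_filter.1 hj).2
        by_cases c1 : j ∈ P K a (dep v)
        · exact mem_union_right _ (mem_filter.2 ⟨c1, hj'⟩)
        · by_cases c2 : j ∈ P K a (dep v - 1)
          · exact mem_union_left _ (mem_union_right _ (mem_filter.2 ⟨mem_univ _, c2, c1⟩))
          · refine mem_union_left _ (mem_union_left _ (mem_filter.2 ⟨mem_univ _, c2, ?_⟩))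
            rw [← hFC j c2]
            exact hj'
      have hc1 := card_le_card hsub
      have hc2 := card_union_le ((univ.filter fun j => j ∉ P K a (dep v - 1) ∧ Cc ω σ κ x y v j < θ) ∪
            (univ.filter fun j : Fin K => j ∈ P K a (dep v - 1) ∧ j ∉ P K a (dep v)))
            ((P K a (dep v)).filter fun j => Fc ω σ κ (xt X) (yt X) v j < θ)
      have hc3 := card_union_le (univ.filter fun j => j ∉ P K a (dep v - 1) ∧ Cc ω σ κ x y v j < θ)
            (univ.filter fun j : Fin K => j ∈ P K a (dep v - 1) ∧ j ∉ P K a (dep v))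
      have hc4 := P_diff_card (K := K) (a := a) hdv.1
      omega
    have hfullΛ : dep v = Λ → ∑ j, y v j = 1 := by
      intro hd
      by_contra hne
      have h := htaint hne
      have he : P K a (dep v) = ∅ := by
        rw [hd]
        unfold P
        rw [filter_eq_empty_iff]
        intro j _
        omega
      rw [he, filter_empty, card_empty] at h
      omega
    have hy's : ∀ j, yt X v j = y v j := fun j => by rw [hyn v (by omega)]
    refine ⟨hx'0 v hv, ?_, ?_, ?_⟩
    · rw [sum_congr rfl fun j _ => hxs v hv j, sum_add_distrib, ← mul_sum]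
      by_cases hd : dep v = Λ
      · rw [hfullΛ hd]
        ring
      · rw [(hX2 v hv hd).2.1]
        ring
    · intro j hj
      rw [hxs v hv j] at hj
      by_cases hyj : 0 < y v j
      · have hjB : j ∉ P K a (dep v - 1) := by
          intro hcon
          rw [yB j hcon] at hyj
          exact lt_irrefl _ hyj
        rw [hFC j hjB]
        exact yC j hyj
      · have hyj0 : y v j = 0 := le_antisymm (not_lt.1 hyj) (yb j).1
        rw [hyj0, zero_add] at hj
        have hne : ∑ i, y v i ≠ 1 := by
          intro h
          rw [h, sub_self, zero_mul] at hj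
          exact lt_irrefl _ hj
        have hXj : 0 < X v j := by
          rcases (hXnn v hv j).lt_or_eq with h | h
          · exact h
          · rw [← h, mul_zero] at hj
            exact absurd hj (lt_irrefl _)
        have hd : dep v ≠ Λ := fun h => hne (hfullΛ h)
        have hm : ∀ z' ∈ ZS a (P K a (dep v)), ∑ j, X v j * Fc ω σ κ (xt X) (yt X) v j ≤
            ∑ j, z' j * Fc ω σ κ (xt X) (yt X) v j := by
          intro z' hz'
          have := hmin v z' (by rw [hX2e v hv hd]; exact hz')
          have e : ∀ j, Cst X v j = Fc ω σ κ (xt X) (yt X) v j := by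
            intro j
            show (if σ v = s then Fc ω σ κ (xt X) (yt X) v j
              else if σ v = s + 1 then Cc ω σ κ (xt X) (yt X) v j - θ else 0) = _
            rw [if_pos hv]
          simpa only [e] using this
        exact (Z_min ha (hX2 v hv hd) hm (htaint hne).le j hXj).le
    · intro hd
      funext j
      rw [hxs v hv j, hX1 v hv hd j, mul_zero, add_zero, hy's j]
  · intro v hv
    have hyv : yt X v = X v := hys v hv
    have hm : ∀ z' ∈ YS a (P K a (dep v - 1)),
        ∑ j, X v j * (Cc ω σ κ (xt X) (yt X) v j - θ) ≤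
          ∑ j, z' j * (Cc ω σ κ (xt X) (yt X) v j - θ) := by
      intro z' hz'
      have := hmin v z' (by rw [hX3e v hv]; exact hz')
      have e : ∀ j, Cst X v j = Cc ω σ κ (xt X) (yt X) v j - θ := by
        intro j
        show (if σ v = s then Fc ω σ κ (xt X) (yt X) v j
          else if σ v = s + 1 then Cc ω σ κ (xt X) (yt X) v j - θ else 0) = _
        rw [if_neg (by omega), if_pos hv]
      simpa only [e] using this
    obtain ⟨m1, m2⟩ := Y_min ha (hX3 v hv) hm
    refine ⟨by rw [hyv]; exact hX3 v hv, ?_, ?_⟩
    · intro j hj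
      rw [hyv] at hj
      have := m1 j hj
      linarith
    · rw [hyv]
      simpa only [sub_neg] using m2

end Pool.Agent.Helper9.KS4
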