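import Pool.Agent.Helper9.KS4.Stage2
import Pool.Agent.Helper9.KS4.LLL
import Pool.Agent.Helper7.KS4.Goals
import Pool.Agent.Helper48.KS3.LEV

/-!
# Project KS4: the weighted splitting lemma
-/

set_option autoImplicit false

namespace Pool.Agent.Helper9.KS4

open Finset Classical

variable {V : Type} [Fintype V] {K : ℕ}

theorem YOK_congr {ω : V → V → ℕ} {σ dep : V → ℕ} {a : ℕ} {θ : ℝ} {κ κ' : V → Fin K}
    {x x' y y' : V → Fin K → ℝ} {v : V}
    (hκ : ∀ u, σ u + 2 ≤ σ v → κ u = κ' u) (hx : ∀ u, σ u + 1 = σ v → x u = x' u)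
    (hy : ∀ u, σ u = σ v → y u = y' u) (h : YOK ω σ dep a θ κ x y v) :
    YOK ω σ dep a θ κ' x' y' v := by
  obtain ⟨h1, h2, h3⟩ := h
  have hC : ∀ j, Cc ω σ κ x y v j = Cc ω σ κ' x' y' v j := fun j => Cc_congr hκ hx hy j
  have hyv : y v = y' v := hy v rfl
  refine ⟨by rw [← hyv]; exact h1, ?_, ?_⟩
  · intro j hj
    rw [← hC j]
    exact h2 j (by rw [hyv]; exact hj)
  · simp only [← hC, ← hyv]
    exact h3

theorem XOK_congr {ω : V → V → ℕ} {σ dep : V → ℕ} {Λ : ℕ} {θ : ℝ} {κ κ' : V → Fin K}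
    {x x' y y' : V → Fin K → ℝ} {v : V}
    (h1 : ∀ v u, 0 < ω v u → σ u ≤ σ v + 1)
    (hκ : ∀ u, σ u + 2 ≤ σ v → κ u = κ' u) (hx : ∀ u, σ u ≤ σ v → x u = x' u)
    (hy : ∀ u, σ v ≤ σ u → σ u ≤ σ v + 1 → y u = y' u) (h : XOK ω σ dep Λ θ κ x y v) :
    XOK ω σ dep Λ θ κ' x' y' v := by
  obtain ⟨e1, e2, e3, e4⟩ := h
  have hC : ∀ j, Fc ω σ κ x y v j = Fc ω σ κ' x' y' v j :=
    fun j => Fc_congr h1 hκ (fun u _ => hx u) (fun u hu => hy u (by omega) (by omega)) j
  have hxv : x v = x' v := hx v le_rfl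
  have hyv : y v = y' v := hy v le_rfl (by omega)
  refine ⟨by rw [← hxv]; exact e1, by rw [← hxv]; exact e2, ?_, by rw [← hxv, ← hyv]; exact e4⟩
  intro j hj
  rw [← hC j]
  exact e3 j (by rw [hxv]; exact hj)

theorem core (ω : V → V → ℕ) (σ dep : V → ℕ) (q w M a Λ t N : ℕ) (θ : ℝ) (hq : 1 ≤ q) (hw : 1 ≤ w)
    (ha : 1 ≤ a) (hM : 1 ≤ M) (hN : 1 ≤ N) (hΛ : Λ = 3 * (q + 1)) (hK : K = Λ * a)
    (hdep : ∀ v, 1 ≤ dep v ∧ dep v ≤ Λ) (hσ : ∀ v, 1 ≤ σ v) (hωw : ∀ v u, ω v u ≤ w)
    (hωM : ∀ v, ∑ u, ω v u ≤ M)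
    (h1 : ∀ v u, 0 < ω v u → σ u ≤ σ v + 1)
    (h2 : ∀ v u, 0 < ω v u → 2 ≤ dep v → σ u ≤ σ v ∧ (σ u = σ v → dep v ≤ dep u + 1))
    (h3 : ∀ v u, 0 < ω v u → σ u = σ v + 1 → dep u = Λ)
    (hθ : θ = (1 + 1 / q) * M / K)
    (hR : ∀ u, (univ.filter fun v => σ v ≤ σ u + 1 ∧ 0 < ω v u).card ≤ N)
    (ht : 8 * (M * N * K) * q ^ t ≤ (q + 1) ^ t) :
    ∃ κ : V → Fin K, ∀ v,
      q ^ 2 * K * (∑ u ∈ univ.filter (fun u => κ u = κ v), ω v u) ≤
        (q + 1) ^ 2 * M + 3 * q ^ 2 * K * t * w := by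
  have hK1 : 1 ≤ K := by rw [hK, hΛ]; exact Nat.mul_pos (by omega) (by omega)
  have hq0 : (0 : ℝ) < q := by exact_mod_cast hq
  have hK0 : (0 : ℝ) < K := by exact_mod_cast hK1
  have key : ∀ s : ℕ, ∃ (κ : V → Fin K) (x y : V → Fin K → ℝ),
      (∀ v, σ v ≤ s → YOK ω σ dep a θ κ x y v) ∧
      (∀ v, σ v < s → XOK ω σ dep Λ θ κ x y v) ∧
      (∀ v, σ v < s → 0 < x v (κ v)) ∧
      (∀ s' < s, ∀ v, s' ≤ σ v + 1 → σ v ≤ s' + 1 → ∀ j,
        (q : ℝ) * (∑ u ∈ univ.filter (fun u => σ u = s'), if κ u = j then (ω v u : ℝ) else 0) ≤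
          (q + 1) * (∑ u ∈ univ.filter (fun u => σ u = s'), ω v u * x u j) + q * t * w) := by
    intro s
    induction s with
    | zero =>
      refine ⟨fun _ => ⟨0, hK1⟩, fun _ _ => 0, fun _ _ => 0, ?_, ?_, ?_, ?_⟩
      · intro v hv
        have := hσ v
        omega
      · intro v hv
        omega
      · intro v hv
        omega
      · intro s' hs'
        omega
    | succ s ih =>
      obtain ⟨κ, x, y, iA, iB, iC, iD⟩ := ih
      obtain ⟨x', y', hx', hy', hX, hY⟩ := stage ω σ dep q a Λ M θ hq ha hM hΛ hK hdep hωM h1 h2 hθ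
        s κ x y (fun v hv => ⟨(iB v (by omega)).1, (iB v (by omega)).2.1⟩)
        (fun v hv => iA v (by omega))
      obtain ⟨κ₁, l1, l2⟩ := wll q w M K N t ω (univ.filter fun u => σ u = s)
        (univ.filter fun v => s ≤ σ v + 1 ∧ σ v ≤ s + 1) x' hq hw hM hK1 hN hωw hωM
        (fun u hu => by
          have := hX u (mem_filter.1 hu).2
          exact ⟨this.1, this.2.1⟩)
        (fun u hu => by
          refine le_trans (card_le_card ?_) (hR u)
          intro v hv
          rw [mem_filter, mem_filter] at hv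
          rw [mem_filter, (mem_filter.1 hu).2]
          exact ⟨mem_univ _, hv.1.2.2, hv.2⟩) ht
      obtain ⟨κ', hκ'⟩ : ∃ κ' : V → Fin K, ∀ v, κ' v = if σ v = s then κ₁ v else κ v :=
        ⟨fun v => if σ v = s then κ₁ v else κ v, fun _ => rfl⟩
      have e1 : ∀ v, σ v ≠ s → κ' v = κ v := fun v hv => by rw [hκ', if_neg hv]
      have e2 : ∀ v, σ v = s → κ' v = κ₁ v := fun v hv => by rw [hκ', if_pos hv]
      refine ⟨κ', x', y', ?_, ?_, ?_, ?_⟩
      · intro v hv
        rcases Nat.lt_or_ge s (σ v) with h | h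
        · have hvs : σ v = s + 1 := by omega
          exact YOK_congr (fun u hu => (e1 u (by omega)).symm) (fun u _ => rfl) (fun u _ => rfl)
            (hY v hvs)
        · exact YOK_congr (fun u hu => (e1 u (by omega)).symm)
            (fun u hu => (hx' u (by omega)).symm) (fun u hu => (hy' u (by omega)).symm) (iA v h)
      · intro v hv
        rcases Nat.lt_or_ge (σ v) s with h | h
        · exact XOK_congr h1 (fun u hu => (e1 u (by omega)).symm)
            (fun u hu => (hx' u (by omega)).symm) (fun u _ hu => (hy' u (by omega)).symm) (iB v h)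
        · have hvs : σ v = s := by omega
          exact XOK_congr h1 (fun u hu => (e1 u (by omega)).symm) (fun u _ => rfl)
            (fun u _ _ => rfl) (hX v hvs)
      · intro v hv
        rcases Nat.lt_or_ge (σ v) s with h | h
        · rw [e1 v (by omega), hx' v (by omega)]
          exact iC v h
        · have hvs : σ v = s := by omega
          rw [e2 v hvs]
          exact l1 v (mem_filter.2 ⟨mem_univ _, hvs⟩)
      · intro s' hs' v hv1 hv2 j
        rcases Nat.lt_or_ge s' s with h | h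
        · have := iD s' h v hv1 hv2 j
          have c1 : (∑ u ∈ univ.filter (fun u => σ u = s'), if κ' u = j then (ω v u : ℝ) else 0) =
              ∑ u ∈ univ.filter (fun u => σ u = s'), if κ u = j then (ω v u : ℝ) else 0 := by
            refine sum_congr rfl fun u hu => ?_
            have := (mem_filter.1 hu).2
            rw [e1 u (by omega)]
          have c2 : (∑ u ∈ univ.filter (fun u => σ u = s'), (ω v u : ℝ) * x' u j) =
              ∑ u ∈ univ.filter (fun u => σ u = s'), (ω v u : ℝ) * x u j := by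
            refine sum_congr rfl fun u hu => ?_
            have := (mem_filter.1 hu).2
            rw [hx' u (by omega)]
          rw [c1, c2]
          exact this
        · have hss : s' = s := by omega
          subst hss
          have := l2 v (mem_filter.2 ⟨mem_univ _, hv1, hv2⟩) j
          have c1 : (∑ u ∈ univ.filter (fun u => σ u = s'), if κ' u = j then (ω v u : ℝ) else 0) =
              ld ω (univ.filter fun u => σ u = s') κ₁ v j := by
            unfold ld
            refine sum_congr rfl fun u hu => ?_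
            rw [e2 u (mem_filter.1 hu).2]
          rw [c1]
          exact this
  obtain ⟨κ, x, y, -, iB, iC, iD⟩ := key (∑ v, σ v + 3)
  have hall : ∀ v, σ v ≤ ∑ v, σ v := fun v => single_le_sum (fun _ _ => Nat.zero_le _) (mem_univ v)
  refine ⟨κ, fun v => ?_⟩
  have hv := hall v
  have hv1 := hσ v
  set j := κ v with hj
  have hF : Fc ω σ κ x y v j ≤ θ := (iB v (by omega)).2.2.1 j (iC v (by omega))
  have d0 := iD (σ v - 1) (by omega) v (by omega) (by omega) j
  have d1 := iD (σ v) (by omega) v (by omega) (by omega) j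
  have d2 := iD (σ v + 1) (by omega) v (by omega) (by omega) j
  rw [sum_filter, sum_filter] at d0 d1 d2
  have hload : ((∑ u ∈ univ.filter (fun u => κ u = j), ω v u : ℕ) : ℝ) =
      (∑ u, if σ u + 2 ≤ σ v then (if κ u = j then (ω v u : ℝ) else 0) else 0) +
      (∑ u, if σ u = σ v - 1 then (if κ u = j then (ω v u : ℝ) else 0) else 0) +
      (∑ u, if σ u = σ v then (if κ u = j then (ω v u : ℝ) else 0) else 0) +
      (∑ u, if σ u = σ v + 1 then (if κ u = j then (ω v u : ℝ) else 0) else 0) := by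
    push_cast
    rw [sum_filter, ← sum_add_distrib, ← sum_add_distrib, ← sum_add_distrib]
    refine sum_congr rfl fun u _ => ?_
    rcases Nat.eq_zero_or_pos (ω v u) with h0 | h0
    · rw [h0]
      simp
    have hs := h1 v u h0
    by_cases c1 : σ u + 2 ≤ σ v
    · rw [if_pos c1, if_neg (by omega : ¬ σ u = σ v - 1), if_neg (by omega : ¬ σ u = σ v),
        if_neg (by omega : ¬ σ u = σ v + 1)]
      ring
    · rw [if_neg c1]
      by_cases c2 : σ u = σ v - 1
      · rw [if_pos c2, if_neg (by omega : ¬ σ u = σ v), if_neg (by omega : ¬ σ u = σ v + 1)]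
        ring
      · rw [if_neg c2]
        by_cases c3 : σ u = σ v
        · rw [if_pos c3, if_neg (by omega : ¬ σ u = σ v + 1)]
          ring
        · rw [if_neg c3, if_pos (by omega : σ u = σ v + 1)]
          ring
  have hFc : Fc ω σ κ x y v j =
      (∑ u, if σ u + 2 ≤ σ v then (if κ u = j then (ω v u : ℝ) else 0) else 0) +
      (∑ u, if σ u = σ v - 1 then (ω v u : ℝ) * x u j else 0) +
      (∑ u, if σ u = σ v then (ω v u : ℝ) * x u j else 0) +
      (∑ u, if σ u = σ v + 1 then (ω v u : ℝ) * x u j else 0) := by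
    unfold Fc
    rw [← sum_add_distrib, ← sum_add_distrib, ← sum_add_distrib]
    refine sum_congr rfl fun u _ => ?_
    rcases Nat.eq_zero_or_pos (ω v u) with h0 | h0
    · rw [h0]
      simp
    have hs := h1 v u h0
    by_cases c1 : σ u + 2 ≤ σ v
    · rw [if_pos c1, if_pos c1, if_neg (by omega : ¬ σ u = σ v - 1),
        if_neg (by omega : ¬ σ u = σ v), if_neg (by omega : ¬ σ u = σ v + 1), mul_ite, mul_one,
        mul_zero]
      ring
    · rw [if_neg c1, if_neg c1]
      by_cases c2 : σ u = σ v - 1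
      · rw [if_pos (by omega : σ u ≤ σ v), if_pos c2, if_neg (by omega : ¬ σ u = σ v),
          if_neg (by omega : ¬ σ u = σ v + 1)]
        ring
      · rw [if_neg c2]
        by_cases c3 : σ u = σ v
        · rw [if_pos (by omega : σ u ≤ σ v), if_pos c3, if_neg (by omega : ¬ σ u = σ v + 1)]
          ring
        · have c4 : σ u = σ v + 1 := by omega
          have hu := hall u
          rw [if_neg (by omega : ¬ σ u ≤ σ v), if_neg c3, if_pos c4,
            (iB u (by omega)).2.2.2 (h3 v u h0 c4)]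
          ring
  have hE : 0 ≤ ∑ u, if σ u + 2 ≤ σ v then (if κ u = j then (ω v u : ℝ) else 0) else 0 := by
    refine sum_nonneg fun u _ => ?_
    split_ifs
    · exact Nat.cast_nonneg _
    · exact le_refl _
    · exact le_refl _
  have hqθ : (q : ℝ) * K * θ = (q + 1) * M := by
    rw [hθ]
    field_simp
  have hmain : (q : ℝ) * ((∑ u ∈ univ.filter (fun u => κ u = j), ω v u : ℕ) : ℝ) ≤
      (q + 1) * θ + 3 * (q * t * w) := by
    rw [hload]
    rw [hFc] at hF
    have := mul_le_mul_of_nonneg_left hF (by positivity : (0 : ℝ) ≤ q + 1)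
    linarith
  have hfin : (q : ℝ) ^ 2 * K * ((∑ u ∈ univ.filter (fun u => κ u = j), ω v u : ℕ) : ℝ) ≤
      (q + 1) ^ 2 * M + 3 * q ^ 2 * K * t * w := by
    have h5 := mul_le_mul_of_nonneg_left hmain (mul_pos hq0 hK0).le
    have h6 : (q : ℝ) * K * ((q + 1) * θ + 3 * (q * t * w)) =
        (q + 1) * (q * K * θ) + 3 * q ^ 2 * K * t * w := by ring
    rw [h6, hqθ] at h5
    calc (q : ℝ) ^ 2 * K * ((∑ u ∈ univ.filter (fun u => κ u = j), ω v u : ℕ) : ℝ) =
        q * K * (q * ((∑ u ∈ univ.filter (fun u => κ u = j), ω v u : ℕ) : ℝ)) := by ring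
      _ ≤ (q + 1) * ((q + 1) * M) + 3 * q ^ 2 * K * t * w := h5
      _ = _ := by ring
  exact_mod_cast hfin

end Pool.Agent.Helper9.KS4
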