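import Pool.Agent.Helper9.KS4.W

/-!
# Project KS4: the weighted splitting lemma, final form
-/

set_option autoImplicit false

namespace Pool.Agent.Helper9.KS4

open Finset Classical

theorem wsl : Pool.Agent.Helper7.KS4.S_WSL := by
  intro V _ ω q w M a g t hq hw hM ha hωw hωM hg2 hcond
  have hg : 1 ≤ g := by
    by_contra hcon
    have : g = 0 := by omega
    rw [this] at hg2
    omega
  obtain ⟨Λ, hΛ⟩ : ∃ Λ, Λ = 3 * (q + 1) := ⟨_, rfl⟩
  have hΛ0 : 0 < Λ := by omega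
  obtain ⟨PD, hPD⟩ : ∃ PD : V → Finset V, ∀ v, PD v = univ.filter (fun u => 0 < ω v u) :=
    ⟨_, fun _ => rfl⟩
  have hPDc : ∀ v, (PD v).card ≤ M := by
    intro v
    refine le_trans ?_ (hωM v)
    rw [hPD, card_eq_sum_ones]
    refine le_trans (sum_le_sum fun u hu => (mem_filter.1 hu).2) ?_
    exact sum_le_sum_of_subset (subset_univ _)
  obtain ⟨ℓ, hℓ1, -, hℓ3⟩ := Pool.Agent.Helper48.KS3.s_lev V 1 M g (fun _ => ∅) PD le_rfl hg2
    (by simp) hPDc
  obtain ⟨h, hh⟩ : ∃ h : V → ℕ, ∀ v, h v = ℓ v / g := ⟨fun v => ℓ v / g, fun _ => rfl⟩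
  have hmem : ∀ v u, 0 < ω v u → u ∈ PD v := by
    intro v u hu
    rw [hPD]
    exact mem_filter.2 ⟨mem_univ _, hu⟩
  have hh1 : ∀ v u, 0 < ω v u → h u ≤ h v + 1 := by
    intro v u hu
    rw [hh, hh]
    have := hℓ1 v u (hmem v u hu)
    calc ℓ u / g ≤ (ℓ v + g) / g := Nat.div_le_div_right this
      _ = ℓ v / g + 1 := Nat.add_div_right _ hg
  have hdm : ∀ v, h v = Λ * (h v / Λ) + h v % Λ := fun v => (Nat.div_add_mod _ _).symm
  have hmod : ∀ v, h v % Λ < Λ := fun v => Nat.mod_lt _ hΛ0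
  -- comparisons of quotients
  have hq1 : ∀ v u, 0 < ω v u → h u / Λ ≤ h v / Λ + 1 := by
    intro v u hu
    calc h u / Λ ≤ (h v + Λ) / Λ := Nat.div_le_div_right (by have := hh1 v u hu; omega)
      _ = h v / Λ + 1 := Nat.add_div_right _ hΛ0
  have hσ1 : ∀ v u, 0 < ω v u → h u / Λ + 1 ≤ h v / Λ + 1 + 1 := by
    intro v u hu
    have := hq1 v u hu
    omega
  have hσ2 : ∀ v u, 0 < ω v u → 2 ≤ Λ - h v % Λ → h u / Λ + 1 ≤ h v / Λ + 1 ∧
      (h u / Λ + 1 = h v / Λ + 1 → Λ - h v % Λ ≤ Λ - h u % Λ + 1) := by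
    intro v u hu hd
    have e1 := hh1 v u hu
    have e2 := hdm v
    have e3 := hdm u
    have e4 := hq1 v u hu
    have e5 := hmod u
    constructor
    · by_contra hcon
      have e6 : h u / Λ = h v / Λ + 1 := by omega
      rw [e6, mul_add, mul_one] at e3
      omega
    · intro e6
      have e7 : h u / Λ = h v / Λ := by omega
      rw [e7] at e3
      omega
  have hσ3 : ∀ v u, 0 < ω v u → h u / Λ + 1 = h v / Λ + 1 + 1 → Λ - h u % Λ = Λ := by
    intro v u hu he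
    have e1 := hh1 v u hu
    have e2 := hdm v
    have e3 := hdm u
    have e5 := hmod v
    have e6 : h u / Λ = h v / Λ + 1 := by omega
    rw [e6, mul_add, mul_one] at e3
    omega
  have hN : ∀ u, (univ.filter fun v => h v / Λ + 1 ≤ h u / Λ + 1 + 1 ∧ 0 < ω v u).card ≤
      2 ^ (g + 6 * (q + 1) * g + 1) := by
    intro u
    refine le_trans (card_le_card ?_) (hℓ3 u (6 * (q + 1) * g))
    intro c hc
    rw [mem_filter] at hc ⊢
    refine ⟨mem_univ _, hmem c u hc.2.2, ?_⟩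
    have k1 : h c / Λ ≤ h u / Λ + 1 := by
      have := hc.2.1
      omega
    rw [hh, hh, Nat.div_div_eq_div_mul, Nat.div_div_eq_div_mul] at k1
    have k2 : 0 < g * Λ := Nat.mul_pos hg hΛ0
    have k3 := Nat.lt_div_mul_add (a := ℓ c) k2
    have k4 := Nat.div_mul_le_self (ℓ u) (g * Λ)
    have k5 : ℓ c / (g * Λ) * (g * Λ) ≤ (ℓ u / (g * Λ) + 1) * (g * Λ) :=
      Nat.mul_le_mul_right _ k1
    have k6 : 6 * (q + 1) * g = 2 * (g * Λ) := by rw [hΛ]; ring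
    rw [k6]
    have k7 : (ℓ u / (g * Λ) + 1) * (g * Λ) = ℓ u / (g * Λ) * (g * Λ) + g * Λ := by ring
    omega
  obtain ⟨κ, hκ⟩ := core (K := 3 * (q + 1) * a) ω (fun v => h v / Λ + 1) (fun v => Λ - h v % Λ)
    q w M a Λ t (2 ^ (g + 6 * (q + 1) * g + 1)) ((1 + 1 / (q : ℝ)) * M / ((3 * (q + 1) * a : ℕ) : ℝ))
    hq hw ha hM Nat.one_le_two_pow hΛ (by rw [hΛ])
    (fun v => ⟨by have := hmod v; show 1 ≤ Λ - h v % Λ; omega, Nat.sub_le _ _⟩)
    (fun v => Nat.le_add_left 1 _) hωw hωM hσ1 hσ2 hσ3 rfl hN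
    (le_trans (Nat.mul_le_mul_right _ (Nat.mul_le_mul_right _ (by norm_num))) hcond)
  refine ⟨κ, fun v => (hκ v).trans ?_⟩
  have : 3 * q ^ 2 * (3 * (q + 1) * a) * t * w ≤ 4 * q ^ 2 * (3 * (q + 1) * a) * t * w := by
    have e : 4 * q ^ 2 * (3 * (q + 1) * a) * t * w =
      3 * q ^ 2 * (3 * (q + 1) * a) * t * w + q ^ 2 * (3 * (q + 1) * a) * t * w := by ring
    omega
  omega

end Pool.Agent.Helper9.KS4
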